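import Mathlib

/-!
# Second order of the Bohr type radius at the origin: basic definitions

`nu = 1 / √2`, the sequence `q` of Taylor coefficients of `z (nu - z) / (1 - nu z)`, and the
class `Ball` of sequences with the contraction property for the multipliers `1 + η z ^ m`.
-/

set_option autoImplicit false

open scoped ComplexConjugate

namespace Pool.Agent.P187o

/-- `1 / √2`. -/
noncomputable def nu : ℝ := √2 / 2

lemma nu_sq : nu ^ 2 = 1 / 2 := by
  unfold nu
  rw [div_pow, Real.sq_sqrt (by norm_num)]
  norm_num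

lemma nu_pos : 0 < nu := by
  unfold nu
  positivity

lemma nu_lt : nu < 7072 / 10000 := by
  have h := nu_sq
  have h0 := nu_pos
  nlinarith

lemma lt_nu : 7071 / 10000 < nu := by
  have h := nu_sq
  have h0 := nu_pos
  nlinarith

lemma nu_lt_one : nu < 1 := by
  have := nu_lt
  linarith

/-- Taylor coefficients of `z (nu - z) / (1 - nu z)`. -/
noncomputable def q (n : ℕ) : ℝ := if n = 0 then 0 else if n = 1 then nu else -nu ^ n

lemma q_zero : q 0 = 0 := by simp [q]

lemma q_one : q 1 = nu := by simp [q]

lemma q_add_two (n : ℕ) : q (n + 2) = -nu ^ (n + 2) := by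
  simp [q]

lemma abs_q (n : ℕ) : |q (n + 1)| = nu ^ (n + 1) := by
  rcases n with _ | n
  · rw [zero_add, q_one, pow_one, abs_of_pos nu_pos]
  · rw [q_add_two, abs_neg, abs_of_pos (pow_pos nu_pos _)]

/-- The shift by `m`. -/
noncomputable def sh (m : ℕ) (a : ℕ → ℂ) (n : ℕ) : ℂ := if m ≤ n then a (n - m) else 0

/-- Sequences which are square summable and satisfy the contraction property of a bounded
analytic function for the multipliers `1 + η z ^ m`, `|η| = 1`. -/
structure Ball (a : ℕ → ℂ) : Prop where
  summ : Summable fun n => ‖a n‖ ^ 2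
  le2 : ∀ m : ℕ, 1 ≤ m → ∀ η : ℂ, ‖η‖ = 1 → ∑' n, ‖a n + η * sh m a n‖ ^ 2 ≤ 2

end Pool.Agent.P187o
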