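import Mathlib
import Pool.Agent.Lib.P187f6b.Bounds
import Pool.Agent.Lib.P187f6b.Defs
import Pool.Agent.Lib.P187o.Defs

/-!
# Taylor coefficients of functions bounded by one form a `Ball` sequence
-/

set_option autoImplicit false

open Complex Metric Filter Topology Set MeasureTheory
open scoped Real ComplexConjugate
open Pool.Agent.P187f6b

namespace Pool.Agent.P187o

lemma parseval_fun {f : ℂ → ℂ} (hf : DifferentiableOn ℂ f (ball 0 1)) {s : ℝ} (hs0 : 0 ≤ s)
    (hs1 : s < 1) :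
    HasSum (fun n => ‖tc f n‖ ^ 2 * s ^ (2 * n))
      ((2 * π)⁻¹ * ∫ θ in (0 : ℝ)..2 * π, ‖f (s * cexp (θ * I))‖ ^ 2) := by
  have h1 := Pa5725d.parseval (tc f) s hs0 (tc_summable hf hs0 hs1)
  have h2 : ∀ θ : ℝ, ∑' n, tc f n * ((s : ℂ) * cexp (θ * I)) ^ n = f (s * cexp (θ * I)) := by
    intro θ
    exact (tc_hasSum hf (by rw [norm_circ hs0]; exact hs1)).tsum_eq
  simp_rw [h2] at h1
  exact h1

/-- Comparison of the sums of squares of Taylor coefficients. -/
lemma sum_sq_le_of_norm_le {g h : ℂ → ℂ} (hg : DifferentiableOn ℂ g (ball 0 1))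
    (hh : DifferentiableOn ℂ h (ball 0 1)) (hb : ∀ z : ℂ, ‖z‖ < 1 → ‖g z‖ ≤ ‖h z‖)
    (hsum : Summable fun n => ‖tc h n‖ ^ 2) (N : ℕ) :
    ∑ n ∈ Finset.range N, ‖tc g n‖ ^ 2 ≤ ∑' n, ‖tc h n‖ ^ 2 := by
  have key : ∀ s : ℝ, s ∈ Ioo (0 : ℝ) 1 →
      ∑ n ∈ Finset.range N, ‖tc g n‖ ^ 2 * s ^ (2 * n) ≤ ∑' n, ‖tc h n‖ ^ 2 := by
    intro s hs
    have h1 := parseval_fun hg hs.1.le hs.2
    have h2 := parseval_fun hh hs.1.le hs.2
    have h3 : ∫ θ in (0 : ℝ)..2 * π, ‖g (s * cexp (θ * I))‖ ^ 2 ≤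
        ∫ θ in (0 : ℝ)..2 * π, ‖h (s * cexp (θ * I))‖ ^ 2 := by
      refine intervalIntegral.integral_mono_on (by positivity) ?_ ?_ ?_
      · exact ((continuous_circ hg hs.1.le hs.2).norm.pow 2).intervalIntegrable _ _
      · exact ((continuous_circ hh hs.1.le hs.2).norm.pow 2).intervalIntegrable _ _
      · intro θ _
        have := hb (s * cexp (θ * I)) (by rw [norm_circ hs.1.le]; exact hs.2)
        exact pow_le_pow_left₀ (norm_nonneg _) this 2
    have h4 : ∑ n ∈ Finset.range N, ‖tc g n‖ ^ 2 * s ^ (2 * n) ≤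
        (2 * π)⁻¹ * ∫ θ in (0 : ℝ)..2 * π, ‖g (s * cexp (θ * I))‖ ^ 2 :=
      sum_le_hasSum _ (fun n _ => by have := hs.1; positivity) h1
    have h5 : (2 * π)⁻¹ * ∫ θ in (0 : ℝ)..2 * π, ‖g (s * cexp (θ * I))‖ ^ 2 ≤
        (2 * π)⁻¹ * ∫ θ in (0 : ℝ)..2 * π, ‖h (s * cexp (θ * I))‖ ^ 2 :=
      mul_le_mul_of_nonneg_left h3 (by positivity)
    have h6 : (2 * π)⁻¹ * ∫ θ in (0 : ℝ)..2 * π, ‖h (s * cexp (θ * I))‖ ^ 2 ≤
        ∑' n, ‖tc h n‖ ^ 2 := by
      rw [← h2.tsum_eq]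
      refine h2.summable.tsum_le_tsum (fun n => ?_) hsum
      have h7 : s ^ (2 * n) ≤ 1 := pow_le_one₀ hs.1.le hs.2.le
      nlinarith [sq_nonneg ‖tc h n‖]
    exact h4.trans (h5.trans h6)
  have hlim : Tendsto (fun s : ℝ => ∑ n ∈ Finset.range N, ‖tc g n‖ ^ 2 * s ^ (2 * n)) (𝓝[<] 1)
      (𝓝 (∑ n ∈ Finset.range N, ‖tc g n‖ ^ 2 * (1 : ℝ) ^ (2 * n))) := by
    refine Tendsto.mono_left ?_ nhdsWithin_le_nhds
    refine tendsto_finsetSum _ (fun n _ => ?_)
    exact ((continuous_const.mul (continuous_id.pow (2 * n))).tendsto 1)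
  simp only [one_pow, mul_one] at hlim
  refine le_of_tendsto hlim ?_
  have : Ioo (0 : ℝ) 1 ∈ 𝓝[<] (1 : ℝ) := Ioo_mem_nhdsLT (by norm_num)
  filter_upwards [this] with s hs using key s hs

lemma hasSum_sh {y : ℕ → ℂ} {z v : ℂ} (m : ℕ) (h : HasSum (fun n => y n * z ^ n) v) :
    HasSum (fun n => sh m y n * z ^ n) (z ^ m * v) := by
  have h1 : HasSum (fun n => sh m y (n + m) * z ^ (n + m)) (z ^ m * v) := by
    refine (h.mul_left (z ^ m)).congr_fun (fun n => ?_)
    simp only [sh, Nat.le_add_left, if_true, Nat.add_sub_cancel, pow_add]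
    ring
  have h2 := (hasSum_nat_add_iff (f := fun n => sh m y n * z ^ n) m).1 h1
  have h3 : ∑ i ∈ Finset.range m, sh m y i * z ^ i = 0 := by
    refine Finset.sum_eq_zero (fun i hi => ?_)
    have : ¬ m ≤ i := not_le.2 (Finset.mem_range.1 hi)
    simp [sh, this]
  rw [h3, add_zero] at h2
  exact h2

lemma tc_one_add (m : ℕ) (hm : 1 ≤ m) (η : ℂ) (n : ℕ) :
    tc (fun z => 1 + η * z ^ m) n = if n = 0 then 1 else if n = m then η else 0 := by
  refine tc_eq (c := fun n => if n = 0 then (1 : ℂ) else if n = m then η else 0)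
    (fun z _ => ?_) n
  have h := hasSum_sum_of_ne_finset_zero (L := .unconditional ℕ) (f := fun n => (if n = 0 then (1 : ℂ) else
    if n = m then η else 0) * z ^ n) (s := {0, m}) (fun n hn => by
      simp only [Finset.mem_insert, Finset.mem_singleton, not_or] at hn
      simp [hn.1, hn.2])
  have h0 : (0 : ℕ) ≠ m := by omega
  rw [Finset.sum_pair h0] at h
  simp only [if_true, pow_zero, mul_one, h0.symm, if_false] at h
  exact h

theorem ball_of_fun {f : ℂ → ℂ} (hf : DifferentiableOn ℂ f (ball 0 1))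
    (hb : ∀ z : ℂ, ‖z‖ < 1 → ‖f z‖ ≤ 1) : Ball (tc f) := by
  refine ⟨summable_of_sum_range_le (c := 1) (fun n => by positivity)
    (fun N => sum_sq_le hf hb N), ?_⟩
  intro m hm η hη
  set h : ℂ → ℂ := fun z => 1 + η * z ^ m with hh
  set g : ℂ → ℂ := fun z => f z * h z with hg
  have hhd : DifferentiableOn ℂ h (ball 0 1) := by
    rw [hh]; fun_prop
  have hgd : DifferentiableOn ℂ g (ball 0 1) := hf.mul hhd
  have e1 : ∀ n, tc g n = tc f n + η * sh m (tc f) n := by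
    intro n
    refine tc_eq (c := fun n => tc f n + η * sh m (tc f) n) (fun z hz => ?_) n
    have h1 := tc_hasSum hf hz
    have h2 := (hasSum_sh m h1).mul_left η
    have h3 : g z = f z + η * (z ^ m * f z) := by
      simp only [hg, hh]; ring
    rw [h3]
    refine (h1.add h2).congr_fun (fun n => ?_)
    ring
  have h0 : (0 : ℕ) ≠ m := by omega
  have e2 : HasSum (fun n => ‖tc h n‖ ^ 2) 2 := by
    have h4 := hasSum_sum_of_ne_finset_zero (L := .unconditional ℕ) (f := fun n => ‖tc h n‖ ^ 2) (s := {0, m})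
      (fun n hn => by
        simp only [Finset.mem_insert, Finset.mem_singleton, not_or] at hn
        rw [hh, tc_one_add m hm η n]
        simp [hn.1, hn.2])
    rw [Finset.sum_pair h0, hh, tc_one_add m hm η 0, tc_one_add m hm η m] at h4
    simp only [if_true, h0.symm, if_false, norm_one, one_pow, hη] at h4
    norm_num at h4
    exact h4
  have e3 : ∀ N, ∑ n ∈ Finset.range N, ‖tc g n‖ ^ 2 ≤ 2 := by
    intro N
    rw [← e2.tsum_eq]
    refine sum_sq_le_of_norm_le hgd hhd (fun z hz => ?_) e2.summable N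
    simp only [hg, norm_mul]
    exact mul_le_of_le_one_left (norm_nonneg _) (hb z hz)
  have e4 : Summable fun n => ‖tc g n‖ ^ 2 :=
    summable_of_sum_range_le (fun n => by positivity) e3
  have e5 : ∑' n, ‖tc g n‖ ^ 2 ≤ 2 :=
    e4.tsum_le_of_sum_range_le e3
  simp_rw [e1] at e5
  exact e5

theorem ball_of_mem {l : ℝ} {f : ℂ → ℂ} (hf : f ∈ FClass l) : Ball (tc f) :=
  ball_of_fun hf.1 (fun z hz => (hf.2.1 z (by simpa using hz)).le)

end Pool.Agent.P187o
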