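import Mathlib
import Pool.Agent.Lib.P187o.Defs

/-!
# Consequences of the contraction property
-/

set_option autoImplicit false

open scoped ComplexConjugate

namespace Pool.Agent.P187o

lemma summable_mul_conj {a b : ℕ → ℂ} (ha : Summable fun n => ‖a n‖ ^ 2)
    (hb : Summable fun n => ‖b n‖ ^ 2) : Summable fun n => a n * conj (b n) := by
  refine Summable.of_norm_bounded (g := fun n => (‖a n‖ ^ 2 + ‖b n‖ ^ 2)) (ha.add hb) (fun n => ?_)
  rw [norm_mul, RCLike.norm_conj]
  nlinarith [sq_nonneg (‖a n‖ - ‖b n‖), sq_nonneg ‖a n‖, sq_nonneg ‖b n‖]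

lemma summable_sq_sh {a : ℕ → ℂ} (m : ℕ) (ha : Summable fun n => ‖a n‖ ^ 2) :
    Summable fun n => ‖sh m a n‖ ^ 2 := by
  rw [← summable_nat_add_iff m]
  simpa [sh] using ha

lemma summable_sq_shift {a : ℕ → ℂ} (m : ℕ) (ha : Summable fun n => ‖a n‖ ^ 2) :
    Summable fun n => ‖a (n + m)‖ ^ 2 := (summable_nat_add_iff m).2 ha

lemma tsum_sh_mul {a b : ℕ → ℂ} (m : ℕ) (h : Summable fun n => sh m a n * b n) :
    ∑' n, sh m a n * b n = ∑' n, a n * b (n + m) := by
  rw [← h.sum_add_tsum_nat_add m]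
  have h1 : ∑ i ∈ Finset.range m, sh m a i * b i = 0 := by
    refine Finset.sum_eq_zero (fun i hi => ?_)
    have : ¬ m ≤ i := not_le.2 (Finset.mem_range.1 hi)
    simp [sh, this]
  rw [h1, zero_add]
  simp [sh]

lemma pairing {a b : ℕ → ℂ} (ha : Summable fun n => ‖a n‖ ^ 2)
    (hb : Summable fun n => ‖b n‖ ^ 2) (m : ℕ) {η : ℂ} (hη : ‖η‖ = 1) :
    HasSum (fun n => (a n + η * sh m a n) * conj (b n + η * sh m b n))
      (2 * ∑' n, a n * conj (b n) + η * ∑' n, a n * conj (b (n + m)) +
        conj η * ∑' n, a (n + m) * conj (b n)) := by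
  have hA := summable_sq_sh m ha
  have hB := summable_sq_sh m hb
  have h1 := (summable_mul_conj ha hb).hasSum
  have h2 := (summable_mul_conj hA hB).hasSum
  have h3 := (summable_mul_conj hA hb).hasSum
  have h4 := (summable_mul_conj ha hB).hasSum
  have e2 : ∑' n, sh m a n * conj (sh m b n) = ∑' n, a n * conj (b n) := by
    rw [tsum_sh_mul m (b := fun n => conj (sh m b n)) h2.summable]
    simp [sh]
  have e3 : ∑' n, sh m a n * conj (b n) = ∑' n, a n * conj (b (n + m)) :=
    tsum_sh_mul m (b := fun n => conj (b n)) h3.summable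
  have e4 : ∑' n, a n * conj (sh m b n) = ∑' n, a (n + m) * conj (b n) := by
    have h5 := (summable_mul_conj hB ha).hasSum
    have e5 : ∑' n, sh m b n * conj (a n) = ∑' n, b n * conj (a (n + m)) :=
      tsum_sh_mul m (b := fun n => conj (a n)) h5.summable
    have e6 := congrArg conj e5
    rw [Complex.conj_tsum, Complex.conj_tsum] at e6
    simp only [map_mul, Complex.conj_conj] at e6
    rw [show (fun n => a n * conj (sh m b n)) = fun n => conj (sh m b n) * a n from
      funext fun n => mul_comm _ _, e6]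
    refine tsum_congr (fun n => mul_comm _ _)
  rw [e2] at h2
  rw [e3] at h3
  rw [e4] at h4
  have hηη : η * conj η = 1 := by
    rw [Complex.mul_conj, Complex.normSq_eq_norm_sq, hη]
    norm_num
  have h7 := ((h1.add h2).add (h3.mul_left η)).add (h4.mul_left (conj η))
  have e7 : 2 * ∑' n, a n * conj (b n) + η * ∑' n, a n * conj (b (n + m)) +
      conj η * ∑' n, a (n + m) * conj (b n) =
      ∑' n, a n * conj (b n) + ∑' n, a n * conj (b n) + η * ∑' n, a n * conj (b (n + m)) +
        conj η * ∑' n, a (n + m) * conj (b n) := by ring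
  rw [e7]
  refine h7.congr_fun (fun n => ?_)
  simp only [map_add, map_mul]
  linear_combination ((sh m a n * conj (sh m b n))) * hηη

namespace Ball

variable {a : ℕ → ℂ}

lemma re_pair_self (a : ℕ → ℂ) (n : ℕ) : (a n * conj (a n)).re = ‖a n‖ ^ 2 := by
  rw [Complex.mul_conj, Complex.ofReal_re, Complex.normSq_eq_norm_sq]

lemma corr (h : Ball a) {m : ℕ} (hm : 1 ≤ m) {η : ℂ} (hη : ‖η‖ = 1) :
    ∑' n, ‖a n‖ ^ 2 + (η * ∑' n, a n * conj (a (n + m))).re ≤ 1 := by
  have h1 := Complex.hasSum_re (pairing h.summ h.summ m hη)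
  have h2 : (fun n => ((a n + η * sh m a n) * conj (a n + η * sh m a n)).re) =
      fun n => ‖a n + η * sh m a n‖ ^ 2 := funext fun n => by
    rw [Complex.mul_conj, Complex.ofReal_re, Complex.normSq_eq_norm_sq]
  rw [h2] at h1
  have h3 := h.le2 m hm η hη
  rw [h1.tsum_eq] at h3
  have h4 : (∑' n, a n * conj (a n)).re = ∑' n, ‖a n‖ ^ 2 := by
    have := Complex.hasSum_re (summable_mul_conj h.summ h.summ).hasSum
    rw [← this.tsum_eq]
    exact tsum_congr (fun n => re_pair_self a n)
  have h5 : (conj η * ∑' n, a (n + m) * conj (a n)).re =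
      (η * ∑' n, a n * conj (a (n + m))).re := by
    rw [← Complex.conj_re (η * ∑' n, a n * conj (a (n + m))), map_mul, Complex.conj_tsum]
    congr 2
    refine tsum_congr (fun n => ?_)
    simp only [map_mul, Complex.conj_conj]
    ring
  simp only [Complex.add_re] at h3
  rw [h5] at h3
  have h6 : (2 * ∑' n, a n * conj (a n)).re = 2 * ∑' n, ‖a n‖ ^ 2 := by
    rw [← h4]; simp
  rw [h6] at h3
  linarith

lemma norm_le (h : Ball a) : ∑' n, ‖a n‖ ^ 2 ≤ 1 := by
  have h1 := h.corr (m := 1) le_rfl (η := 1) (by simp)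
  have h2 := h.corr (m := 1) le_rfl (η := -1) (by simp)
  simp only [one_mul, neg_mul, Complex.neg_re] at h1 h2
  linarith

lemma abs_corr (h : Ball a) {m : ℕ} (hm : 1 ≤ m) :
    ‖∑' n, a n * conj (a (n + m))‖ ≤ 1 - ∑' n, ‖a n‖ ^ 2 := by
  set w := ∑' n, a n * conj (a (n + m)) with hw
  rcases eq_or_ne w 0 with h0 | h0
  · rw [h0, norm_zero]
    have := h.norm_le
    linarith
  · have hη : ‖conj w / (‖w‖ : ℂ)‖ = 1 := by
      rw [norm_div, RCLike.norm_conj, Complex.norm_real, norm_norm,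
        div_self (norm_ne_zero_iff.2 h0)]
    have h1 := h.corr hm hη
    rw [← hw] at h1
    have h2 : conj w / (‖w‖ : ℂ) * w = (‖w‖ : ℂ) := by
      have h3 : (‖w‖ : ℂ) ≠ 0 := by exact_mod_cast norm_ne_zero_iff.2 h0
      rw [div_mul_eq_mul_div, mul_comm (conj w) w, Complex.mul_conj, Complex.normSq_eq_norm_sq,
        div_eq_iff h3]
      push_cast
      ring
    rw [h2, Complex.ofReal_re] at h1
    linarith

end Ball

end Pool.Agent.P187o
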