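import Mathlib
import Pool.Agent.Lib.P187o.Pair

/-!
# The linear relations given by pairing with the extremal sequence
-/

set_option autoImplicit false

open scoped ComplexConjugate

namespace Pool.Agent.P187o

lemma hasSum_nu_sq (c : ℝ) : HasSum (fun n : ℕ => c * (nu ^ n) ^ 2) (2 * c) := by
  have h1 : HasSum (fun n : ℕ => (1 / 2 : ℝ) ^ n) 2 := by
    have := hasSum_geometric_of_lt_one (r := (1 / 2 : ℝ)) (by norm_num) (by norm_num)
    norm_num at this ⊢
    exact this
  have h2 := h1.mul_left c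
  rw [mul_comm c 2] at h2
  refine h2.congr_fun (fun n => ?_)
  rw [← pow_mul, mul_comm n 2, pow_mul, nu_sq]

lemma hasSum_q_sq : HasSum (fun n => q n * q n) 1 := by
  have h1 : HasSum (fun n => q (n + 2) * q (n + 2)) (2 * nu ^ 4) := by
    refine (hasSum_nu_sq (nu ^ 4)).congr_fun (fun n => ?_)
    rw [q_add_two]
    ring
  have h2 := (hasSum_nat_add_iff (f := fun n => q n * q n) 2).1 h1
  have h3 : 2 * nu ^ 4 + ∑ i ∈ Finset.range 2, q i * q i = 1 := by
    rw [Finset.sum_range_succ, Finset.sum_range_one, q_zero, q_one]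
    have h4 : nu ^ 4 = 1 / 4 := by
      rw [show (4 : ℕ) = 2 * 2 from rfl, pow_mul, nu_sq]; norm_num
    have h5 : nu * nu = 1 / 2 := by rw [← sq, nu_sq]
    rw [h4, h5]
    norm_num
  rw [h3] at h2
  exact h2

lemma hasSum_q_corr {m : ℕ} (hm : 1 ≤ m) : HasSum (fun n => q n * q (n + m)) 0 := by
  obtain ⟨k, rfl⟩ : ∃ k, m = k + 1 := ⟨m - 1, by omega⟩
  have h1 : HasSum (fun n => q (n + 2) * q (n + 2 + (k + 1))) (2 * nu ^ (k + 5)) := by
    refine (hasSum_nu_sq (nu ^ (k + 5))).congr_fun (fun n => ?_)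
    rw [q_add_two, show n + 2 + (k + 1) = (n + k + 1) + 2 by ring, q_add_two]
    ring
  have h2 := (hasSum_nat_add_iff (f := fun n => q n * q (n + (k + 1))) 2).1 h1
  have h3 : 2 * nu ^ (k + 5) + ∑ i ∈ Finset.range 2, q i * q (i + (k + 1)) = 0 := by
    rw [Finset.sum_range_succ, Finset.sum_range_one, q_zero, q_one,
      show 1 + (k + 1) = k + 2 by ring, q_add_two]
    have h5 : nu ^ (k + 5) = nu ^ (k + 3) * (1 / 2) := by rw [← nu_sq]; ring
    rw [h5]
    ring
  rw [h3] at h2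
  exact h2

lemma summable_q : Summable fun n => ‖(q n : ℂ)‖ ^ 2 := by
  refine hasSum_q_sq.summable.congr (fun n => ?_)
  rw [Complex.norm_real, Real.norm_eq_abs, sq_abs, sq]

namespace Ball

variable {a : ℕ → ℂ}

lemma pairq (h : Ball a) {m : ℕ} (hm : 1 ≤ m) {η : ℂ} (hη : ‖η‖ = 1) :
    (2 * ∑' n, a n * (q n : ℂ) + η * ∑' n, a n * (q (n + m) : ℂ) +
      conj η * ∑' n, a (n + m) * (q n : ℂ)).re ≤ 2 := by
  have h1 := Complex.hasSum_re (pairing h.summ summable_q m hη)
  have h2 := Complex.hasSum_re (pairing summable_q summable_q m hη)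
  have e1 : (fun n => (((q n : ℂ) + η * sh m (fun n => (q n : ℂ)) n) *
      conj ((q n : ℂ) + η * sh m (fun n => (q n : ℂ)) n)).re) =
      fun n => ‖(q n : ℂ) + η * sh m (fun n => (q n : ℂ)) n‖ ^ 2 := funext fun n => by
    rw [Complex.mul_conj, Complex.ofReal_re, Complex.normSq_eq_norm_sq]
  rw [e1] at h2
  have e2 : ∑' n, (q n : ℂ) * conj (q n : ℂ) = 1 := by
    have h3 : HasSum (fun n => ((q n * q n : ℝ) : ℂ)) ((1 : ℝ) : ℂ) :=
      Complex.hasSum_ofReal.2 hasSum_q_sq
    rw [← Complex.ofReal_one, ← h3.tsum_eq]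
    exact tsum_congr (fun n => by rw [Complex.conj_ofReal]; push_cast; ring)
  have e3 : ∑' n, (q n : ℂ) * conj (q (n + m) : ℂ) = 0 := by
    have h3 : HasSum (fun n => ((q n * q (n + m) : ℝ) : ℂ)) ((0 : ℝ) : ℂ) :=
      Complex.hasSum_ofReal.2 (hasSum_q_corr hm)
    rw [← Complex.ofReal_zero, ← h3.tsum_eq]
    exact tsum_congr (fun n => by rw [Complex.conj_ofReal]; push_cast; ring)
  have e4 : ∑' n, (q (n + m) : ℂ) * conj (q n : ℂ) = 0 := by
    rw [← e3]
    exact tsum_congr (fun n => by rw [Complex.conj_ofReal, Complex.conj_ofReal, mul_comm])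
  rw [e2, e3, e4] at h2
  simp only [mul_one, mul_zero, add_zero, Complex.re_ofNat] at h2
  have hA : Summable fun n => ‖a n + η * sh m a n‖ ^ 2 := by
    have h5 := Complex.hasSum_re (pairing h.summ h.summ m hη)
    refine h5.summable.congr (fun n => ?_)
    rw [Complex.mul_conj, Complex.ofReal_re, Complex.normSq_eq_norm_sq]
  have h4 := h.le2 m hm η hη
  have h6 : ∑' n, ((a n + η * sh m a n) *
      conj ((q n : ℂ) + η * sh m (fun n => (q n : ℂ)) n)).re ≤
      ∑' n, (1 / 2 * ‖a n + η * sh m a n‖ ^ 2 +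
        1 / 2 * ‖(q n : ℂ) + η * sh m (fun n => (q n : ℂ)) n‖ ^ 2) := by
    refine h1.summable.tsum_le_tsum (fun n => ?_) ((hA.mul_left _).add (h2.summable.mul_left _))
    have h7 := Complex.re_le_norm ((a n + η * sh m a n) *
      conj ((q n : ℂ) + η * sh m (fun n => (q n : ℂ)) n))
    rw [norm_mul, RCLike.norm_conj] at h7
    nlinarith [sq_nonneg (‖a n + η * sh m a n‖ -
      ‖(q n : ℂ) + η * sh m (fun n => (q n : ℂ)) n‖)]
  rw [h1.tsum_eq, ((hA.mul_left _).tsum_add (h2.summable.mul_left _)), tsum_mul_left,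
    tsum_mul_left, h2.tsum_eq] at h6
  simp only [Complex.conj_ofReal] at h6
  linarith

lemma re_tsum_q (h : Ball a) (m k : ℕ) :
    HasSum (fun n => (a (n + k)).re * q (n + m)) (∑' n, a (n + k) * (q (n + m) : ℂ)).re := by
  have h1 := summable_mul_conj (summable_sq_shift k h.summ) (summable_sq_shift m summable_q)
  simp only [Complex.conj_ofReal] at h1
  have h2 := Complex.hasSum_re h1.hasSum
  refine h2.congr_fun (fun n => ?_)
  rw [Complex.re_mul_ofReal]

lemma im_tsum_q (h : Ball a) (m k : ℕ) :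
    HasSum (fun n => (a (n + k)).im * q (n + m)) (∑' n, a (n + k) * (q (n + m) : ℂ)).im := by
  have h1 := summable_mul_conj (summable_sq_shift k h.summ) (summable_sq_shift m summable_q)
  simp only [Complex.conj_ofReal] at h1
  have h2 := Complex.hasSum_im h1.hasSum
  refine h2.congr_fun (fun n => ?_)
  rw [Complex.im_mul_ofReal]

lemma pair_re (h : Ball a) {m : ℕ} (hm : 1 ≤ m) :
    |∑' n, (a n).re * q (n + m) + ∑' n, (a (n + m)).re * q n| ≤
      2 * (1 - ∑' n, (a n).re * q n) := by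
  have e1 := (h.re_tsum_q m 0).tsum_eq
  have e2 := (h.re_tsum_q 0 m).tsum_eq
  have e3 := (h.re_tsum_q 0 0).tsum_eq
  simp only [add_zero] at e1 e2 e3
  have h1 := h.pairq hm (η := 1) (by simp)
  have h2 := h.pairq hm (η := -1) (by simp)
  simp only [one_mul, neg_mul, map_one, map_neg, Complex.add_re, Complex.neg_re, Complex.mul_re,
    Complex.re_ofNat, Complex.im_ofNat, zero_mul, sub_zero] at h1 h2
  rw [abs_le]
  constructor <;> linarith

lemma pair_im (h : Ball a) {m : ℕ} (hm : 1 ≤ m) :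
    |∑' n, (a n).im * q (n + m) - ∑' n, (a (n + m)).im * q n| ≤
      2 * (1 - ∑' n, (a n).re * q n) := by
  have e1 := (h.im_tsum_q m 0).tsum_eq
  have e2 := (h.im_tsum_q 0 m).tsum_eq
  have e3 := (h.re_tsum_q 0 0).tsum_eq
  simp only [add_zero] at e1 e2 e3
  have h1 := h.pairq hm (η := Complex.I) (by simp)
  have h2 := h.pairq hm (η := -Complex.I) (by simp)
  simp only [map_neg, Complex.conj_I, neg_neg, neg_mul, Complex.add_re, Complex.neg_re,
    Complex.mul_re, Complex.re_ofNat, Complex.im_ofNat, zero_mul, sub_zero, Complex.I_re,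
    Complex.I_im, one_mul, zero_sub] at h1 h2
  rw [abs_le]
  constructor <;> linarith

lemma delta_nonneg (h : Ball a) : 0 ≤ 1 - ∑' n, (a n).re * q n := by
  have := h.pair_re (m := 1) le_rfl
  have h2 := abs_nonneg (∑' n, (a n).re * q (n + 1) + ∑' n, (a (n + 1)).re * q n)
  linarith

end Ball

end Pool.Agent.P187o
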