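import Mathlib
import Pool.Agent.Lib.P187o.Rel

/-!
# First consequences of a large majorant: closeness of the moduli
-/

set_option autoImplicit false

open scoped ComplexConjugate

namespace Pool.Agent.P187o

/-- Deviation of the modulus of the coefficient of index `n + 1` from `nu ^ (n + 1)`. -/
noncomputable def xx (a : ℕ → ℂ) (n : ℕ) : ℝ := ‖a (n + 1)‖ - nu ^ (n + 1)

/-- The standing situation: a normalised sequence with a large majorant at `nu * (1 - σ)`. -/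
structure Big (a : ℕ → ℂ) (l σ : ℝ) : Prop where
  ball : Ball a
  l_pos : 0 < l
  l_small : l ≤ 1 / 10 ^ 24
  a0 : ‖a 0‖ = l
  a1 : a 1 = (‖a 1‖ : ℂ)
  a2 : a 2 = -(‖a 2‖ : ℂ)
  s1 : l / 2 ≤ σ
  s2 : σ ≤ l
  big : 1 - l < ∑' n, ‖a (n + 1)‖ * (nu * (1 - σ)) ^ (n + 1)

lemma hasSum_w_geom {s : ℝ} (h0 : 0 ≤ s) (h1 : s ≤ 1) :
    HasSum (fun n : ℕ => (nu ^ (n + 1)) ^ 2 * s ^ (n + 1)) (s / (2 - s)) := by
  have h2 := (hasSum_geometric_of_lt_one (r := s / 2) (by linarith) (by linarith)).mul_left (s / 2)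
  have h3 : s / 2 * (1 - s / 2)⁻¹ = s / (2 - s) := by
    have : (1 - s / 2) ≠ 0 := by linarith
    have : (2 - s) ≠ 0 := by linarith
    field_simp
  rw [h3] at h2
  refine h2.congr_fun (fun n => ?_)
  rw [← pow_mul, mul_comm (n + 1) 2, pow_mul, nu_sq, ← mul_pow, ← pow_succ']
  congr 1
  ring

lemma hasSum_w : HasSum (fun n : ℕ => (nu ^ (n + 1)) ^ 2) 1 := by
  have := hasSum_w_geom (s := 1) zero_le_one le_rfl
  norm_num at this
  exact this

lemma hasSum_w_choose (k : ℕ) : HasSum (fun n : ℕ => (nu ^ (n + 1)) ^ 2 * ((n + k).choose k : ℝ))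
    (2 ^ k) := by
  have h := (hasSum_choose_mul_geometric_of_norm_lt_one (𝕜 := ℝ) k (r := 1 / 2)
    (by norm_num)).mul_left (1 / 2)
  have e : (1 / 2 : ℝ) * (1 / (1 - 1 / 2) ^ (k + 1)) = 2 ^ k := by
    rw [show (1 : ℝ) - 1 / 2 = 1 / 2 by norm_num, pow_succ]
    rw [div_pow, one_pow]
    have : (2 : ℝ) ^ k ≠ 0 := by positivity
    field_simp
  rw [e] at h
  refine h.congr_fun (fun n => ?_)
  rw [← pow_mul, mul_comm (n + 1) 2, pow_mul, nu_sq, pow_succ]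
  ring

lemma choose_cast_one (n : ℕ) : ((n + 1).choose 1 : ℝ) = n + 1 := by
  simp

lemma choose_cast_two (n : ℕ) : ((n + 2).choose 2 : ℝ) = (n + 1) * (n + 2) / 2 := by
  rw [Nat.cast_choose_two]
  push_cast
  ring

lemma choose_cast_three (n : ℕ) : ((n + 3).choose 3 : ℝ) = (n + 1) * (n + 2) * (n + 3) / 6 := by
  have h := Nat.add_one_mul_choose_eq (n + 2) 2
  have h2 : ((n + 2 + 1 : ℕ) : ℝ) * ((n + 2).choose 2 : ℝ) = ((n + 3).choose 3 : ℝ) * 3 := by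
    exact_mod_cast h
  rw [choose_cast_two] at h2
  push_cast at h2
  linarith

lemma choose_cast_four (n : ℕ) :
    ((n + 4).choose 4 : ℝ) = (n + 1) * (n + 2) * (n + 3) * (n + 4) / 24 := by
  have h := Nat.add_one_mul_choose_eq (n + 3) 3
  have h2 : ((n + 3 + 1 : ℕ) : ℝ) * ((n + 3).choose 3 : ℝ) = ((n + 4).choose 4 : ℝ) * 4 := by
    exact_mod_cast h
  rw [choose_cast_three] at h2
  push_cast at h2
  linarith

lemma hasSum_w_one : HasSum (fun n : ℕ => (nu ^ (n + 1)) ^ 2 * ((n : ℝ) + 1)) 2 := by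
  have h := hasSum_w_choose 1
  norm_num at h
  exact h

lemma hasSum_w_two : HasSum (fun n : ℕ => (nu ^ (n + 1)) ^ 2 * ((n : ℝ) + 1) ^ 2) 6 := by
  have h := ((hasSum_w_choose 2).mul_left 2).sub (hasSum_w_choose 1)
  rw [show (2 : ℝ) * 2 ^ 2 - 2 ^ 1 = 6 by norm_num] at h
  refine h.congr_fun (fun n => ?_)
  rw [choose_cast_one, choose_cast_two]
  ring

lemma hasSum_w_four : HasSum (fun n : ℕ => (nu ^ (n + 1)) ^ 2 * ((n : ℝ) + 1) ^ 4) 150 := by
  have h := ((((hasSum_w_choose 4).mul_left 24).sub ((hasSum_w_choose 3).mul_left 36)).add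
    ((hasSum_w_choose 2).mul_left 14)).sub (hasSum_w_choose 1)
  rw [show (24 : ℝ) * 2 ^ 4 - 36 * 2 ^ 3 + 14 * 2 ^ 2 - 2 ^ 1 = 150 by norm_num] at h
  refine h.congr_fun (fun n => ?_)
  rw [choose_cast_one, choose_cast_two, choose_cast_three, choose_cast_four]
  ring

namespace Big

variable {a : ℕ → ℂ} {l σ : ℝ}

lemma summ1 (h : Big a l σ) : Summable fun n => ‖a (n + 1)‖ ^ 2 :=
  (summable_nat_add_iff (f := fun n => ‖a n‖ ^ 2) 1).2 h.ball.summ

lemma sum1_le (h : Big a l σ) : ∑' n, ‖a n‖ ^ 2 = l ^ 2 + ∑' n, ‖a (n + 1)‖ ^ 2 := by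
  rw [h.ball.summ.tsum_eq_zero_add, h.a0]

lemma summ_mul {u v : ℕ → ℝ} (hu : Summable fun n => u n ^ 2) (hv : Summable fun n => v n ^ 2) :
    Summable fun n => u n * v n := by
  refine Summable.of_norm_bounded (g := fun n => (1 / 2 : ℝ) * u n ^ 2 + (1 / 2) * v n ^ 2)
    ((hu.mul_left _).add (hv.mul_left _)) (fun n => ?_)
  rw [Real.norm_eq_abs, abs_le]
  constructor
  · nlinarith [sq_nonneg (u n + v n)]
  · nlinarith [sq_nonneg (u n - v n)]

lemma summ_wx (h : Big a l σ) : Summable fun n => nu ^ (n + 1) * xx a n := by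
  have h1 := summ_mul (u := fun n => nu ^ (n + 1)) (v := fun n => ‖a (n + 1)‖) hasSum_w.summable
    h.summ1
  refine (h1.sub hasSum_w.summable).congr (fun n => ?_)
  simp only [xx]
  ring

lemma summ_xx (h : Big a l σ) : Summable fun n => xx a n ^ 2 := by
  have h1 := summ_mul (u := fun n => nu ^ (n + 1)) (v := fun n => ‖a (n + 1)‖) hasSum_w.summable
    h.summ1
  refine ((h.summ1.add hasSum_w.summable).sub (h1.mul_left 2)).congr (fun n => ?_)
  simp only [xx]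
  ring

lemma energy (h : Big a l σ) : ∑' n, ‖a (n + 1)‖ ^ 2 =
    1 + 2 * (∑' n, nu ^ (n + 1) * xx a n) + ∑' n, xx a n ^ 2 := by
  have h1 := (hasSum_w.add (h.summ_wx.hasSum.mul_left 2)).add h.summ_xx.hasSum
  rw [← h1.tsum_eq]
  refine tsum_congr (fun n => ?_)
  simp only [xx]
  ring

lemma energy_le (h : Big a l σ) : 2 * (∑' n, nu ^ (n + 1) * xx a n) ≤
    -l ^ 2 - ∑' n, xx a n ^ 2 := by
  have h1 := h.energy
  have h2 := h.ball.norm_le
  rw [h.sum1_le] at h2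
  linarith

lemma sigma_pos (h : Big a l σ) : 0 < σ := by
  have := h.l_pos
  have := h.s1
  linarith

lemma sigma_small (h : Big a l σ) : σ ≤ 1 / 10 ^ 24 := h.s2.trans h.l_small

lemma pow_bd {σ : ℝ} (h0 : 0 ≤ σ) (h1 : σ ≤ 1) (n : ℕ) :
    0 ≤ 1 - (1 - σ) ^ (n + 1) ∧ 1 - (1 - σ) ^ (n + 1) ≤ (n + 1) * σ := by
  constructor
  · have := pow_le_one₀ (n := n + 1) (by linarith : 0 ≤ 1 - σ) (by linarith)
    linarith
  · have := one_add_mul_le_pow (a := -σ) (by linarith) (n + 1)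
    push_cast at this
    rw [← sub_eq_add_neg] at this
    linarith

lemma big' (h : Big a l σ) : -2 * σ ^ 2 - (1 / 4) * (∑' n, xx a n ^ 2) - 6 * σ ^ 2 ≤
    ∑' n, nu ^ (n + 1) * xx a n := by
  have hσ := h.sigma_pos
  have hσ1 := h.sigma_small
  have hσ2 : σ ≤ 1 := hσ1.trans (by norm_num)
  have hb := h.big
  have hg := hasSum_w_geom (s := 1 - σ) (by linarith) (by linarith)
  -- the sum splits
  have hs2 : Summable fun n => nu ^ (n + 1) * xx a n * (1 - (1 - σ) ^ (n + 1)) := by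
    refine Summable.of_norm_bounded (g := fun n => |nu ^ (n + 1) * xx a n|)
      h.summ_wx.abs (fun n => ?_)
    rw [norm_mul, Real.norm_eq_abs, Real.norm_eq_abs]
    have := pow_bd hσ.le hσ2 n
    have h3 : |1 - (1 - σ) ^ (n + 1)| ≤ 1 := by
      rw [abs_of_nonneg this.1]
      have := pow_nonneg (by linarith : 0 ≤ 1 - σ) (n + 1)
      linarith
    exact mul_le_of_le_one_right (abs_nonneg _) h3
  have e1 : ∑' n, ‖a (n + 1)‖ * (nu * (1 - σ)) ^ (n + 1) = (1 - σ) / (2 - (1 - σ)) +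
      (∑' n, nu ^ (n + 1) * xx a n) - ∑' n, nu ^ (n + 1) * xx a n * (1 - (1 - σ) ^ (n + 1)) := by
    have h4 := (hg.add h.summ_wx.hasSum).sub hs2.hasSum
    rw [← h4.tsum_eq]
    refine tsum_congr (fun n => ?_)
    simp only [xx, mul_pow]
    ring
  rw [e1] at hb
  have h5 : (1 - σ) / (2 - (1 - σ)) ≤ 1 - 2 * σ + 2 * σ ^ 2 := by
    rw [div_le_iff₀ (by linarith)]
    nlinarith [pow_pos hσ 3]
  have h6 : -((1 / 4) * (∑' n, xx a n ^ 2) + 6 * σ ^ 2) ≤
      ∑' n, nu ^ (n + 1) * xx a n * (1 - (1 - σ) ^ (n + 1)) := by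
    have h7 : HasSum (fun n => -((1 / 4) * xx a n ^ 2 +
        σ ^ 2 * ((nu ^ (n + 1)) ^ 2 * ((n : ℝ) + 1) ^ 2)))
        (-((1 / 4) * (∑' n, xx a n ^ 2) + σ ^ 2 * 6)) :=
      ((h.summ_xx.hasSum.mul_left _).add (hasSum_w_two.mul_left _)).neg
    have h8 := h7.summable.tsum_le_tsum (fun n => ?_) hs2
    · rw [h7.tsum_eq] at h8
      linarith
    · have h9 := pow_bd hσ.le hσ2 n
      have h10 : |nu ^ (n + 1) * xx a n * (1 - (1 - σ) ^ (n + 1))| ≤
          nu ^ (n + 1) * |xx a n| * (((n : ℝ) + 1) * σ) := by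
        rw [abs_mul, abs_mul, abs_of_pos (pow_pos nu_pos _), abs_of_nonneg h9.1]
        exact mul_le_mul_of_nonneg_left h9.2 (mul_nonneg (pow_pos nu_pos _).le (abs_nonneg _))
      have h11 := neg_abs_le (nu ^ (n + 1) * xx a n * (1 - (1 - σ) ^ (n + 1)))
      have h12 : nu ^ (n + 1) * |xx a n| * (((n : ℝ) + 1) * σ) ≤ (1 / 4) * xx a n ^ 2 +
          σ ^ 2 * ((nu ^ (n + 1)) ^ 2 * ((n : ℝ) + 1) ^ 2) := by
        have h13 := sq_nonneg (1 / 2 * |xx a n| - σ * (nu ^ (n + 1) * ((n : ℝ) + 1)))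
        have h14 : |xx a n| ^ 2 = xx a n ^ 2 := sq_abs _
        nlinarith
      linarith
  have hs1 := h.s1
  linarith

lemma X2_le (h : Big a l σ) : ∑' n, xx a n ^ 2 ≤ 32 * σ ^ 2 := by
  have h1 := h.energy_le
  have h2 := h.big'
  have h3 := sq_nonneg l
  linarith

lemma wx_ge (h : Big a l σ) : -16 * σ ^ 2 ≤ ∑' n, nu ^ (n + 1) * xx a n := by
  have h1 := h.X2_le
  have h2 := h.big'
  linarith

lemma wx_le (h : Big a l σ) : ∑' n, nu ^ (n + 1) * xx a n ≤ -l ^ 2 / 2 := by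
  have h1 := h.energy_le
  have h2 : 0 ≤ ∑' n, xx a n ^ 2 := tsum_nonneg (fun n => sq_nonneg _)
  linarith

lemma defect_le (h : Big a l σ) : 1 - ∑' n, ‖a n‖ ^ 2 ≤ 32 * σ ^ 2 := by
  have h1 := h.energy
  have h2 := h.wx_ge
  have h3 := h.sum1_le
  have h4 : 0 ≤ ∑' n, xx a n ^ 2 := tsum_nonneg (fun n => sq_nonneg _)
  have h5 := sq_nonneg l
  linarith

lemma xx_sq_le (h : Big a l σ) (n : ℕ) : xx a n ^ 2 ≤ 32 * σ ^ 2 :=
  (h.summ_xx.le_tsum n (fun _ _ => sq_nonneg _)).trans h.X2_le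

lemma abs_xx_le (h : Big a l σ) (n : ℕ) : |xx a n| ≤ 6 * l := by
  have h1 := h.xx_sq_le n
  have h2 := h.sigma_pos
  have h3 := h.s2
  refine abs_le_of_sq_le_sq (h1.trans ?_) (by linarith)
  nlinarith

end Big

end Pool.Agent.P187o
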