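import Mathlib
import Pool.Agent.Lib.P187o.StepA
import Pool.Agent.Lib.P187o.Func

/-!
# The comparison function for the upper bound
-/

set_option autoImplicit false

open Complex Metric
open scoped ComplexConjugate
open Pool.Agent.P187f6b

namespace Pool.Agent.P187o

/-- Ratios of the Taylor coefficients of `Q ^ 2` and of `Q`. -/
noncomputable def tt (n : ℕ) : ℝ := if n = 1 then 0 else if n = 2 then -1 else 5 - n

/-- Ratios of the Taylor coefficients of `Q ^ 3` and of `Q`. -/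
noncomputable def ee (n : ℕ) : ℝ :=
  if n = 3 then -1 else if n ≤ 2 then 0 else ((n : ℝ) - 5) * (n - 10) / 2

/-- The Blaschke product `z (nu - z) / (1 - nu z)`. -/
noncomputable def QQ (z : ℂ) : ℂ := z * (nu - z) / (1 - nu * z)

lemma hasSum_single_pow (k : ℕ) (c z : ℂ) :
    HasSum (fun n => (if n = k then c else 0) * z ^ n) (c * z ^ k) := by
  have := hasSum_single (f := fun n => (if n = k then c else 0) * z ^ n) k
    (fun n hn => by simp [hn])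
  simpa using this

lemma norm_nu_mul {z : ℂ} (hz : ‖z‖ < 1) : ‖(nu : ℂ) * z‖ < 1 := by
  rw [norm_mul, Complex.norm_real, Real.norm_eq_abs, abs_of_pos nu_pos]
  have := nu_lt_one
  have := nu_pos
  have := norm_nonneg z
  nlinarith

lemma den_ne {z : ℂ} (hz : ‖z‖ < 1) : (1 : ℂ) - nu * z ≠ 0 := by
  intro h
  have h1 : (nu : ℂ) * z = 1 := by linear_combination -h
  have h2 := norm_nu_mul hz
  rw [h1, norm_one] at h2
  exact lt_irrefl _ h2

lemma geo (k : ℕ) {z : ℂ} (hz : ‖z‖ < 1) :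
    HasSum (fun n : ℕ => (((n + k).choose k : ℝ) : ℂ) * (nu : ℂ) ^ n * z ^ n)
      ((1 / (1 - nu * z)) ^ (k + 1)) := by
  have h := hasSum_choose_mul_geometric_of_norm_lt_one (𝕜 := ℂ) k (norm_nu_mul hz)
  rw [div_pow, one_pow]
  refine h.congr_fun (fun n => ?_)
  rw [mul_pow]
  push_cast
  ring

lemma geo0 {z : ℂ} (hz : ‖z‖ < 1) :
    HasSum (fun n : ℕ => (nu : ℂ) ^ n * z ^ n) (1 / (1 - nu * z)) := by
  have h := geo 0 hz
  simpa using h

lemma geo1 {z : ℂ} (hz : ‖z‖ < 1) :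
    HasSum (fun n : ℕ => ((n : ℂ) + 1) * (nu : ℂ) ^ n * z ^ n) ((1 / (1 - nu * z)) ^ 2) := by
  have h := geo 1 hz
  refine h.congr_fun (fun n => ?_)
  rw [choose_cast_one]
  push_cast
  ring

lemma geo2 {z : ℂ} (hz : ‖z‖ < 1) :
    HasSum (fun n : ℕ => (((n : ℂ) + 1) * (n + 2) / 2) * (nu : ℂ) ^ n * z ^ n)
      ((1 / (1 - nu * z)) ^ 3) := by
  have h := geo 2 hz
  refine h.congr_fun (fun n => ?_)
  rw [choose_cast_two]
  push_cast
  ring

lemma nu_sq' : (nu : ℂ) ^ 2 = 1 / 2 := by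
  rw [← Complex.ofReal_pow, nu_sq]; push_cast; ring

lemma QQ_eq {z : ℂ} (hz : ‖z‖ < 1) : QQ z = 1 + 2 * (nu * z) - 1 / (1 - nu * z) := by
  have hd := den_ne hz
  have h1 : 1 / (1 - (nu : ℂ) * z) * (1 - nu * z) = 1 := one_div_mul_cancel hd
  unfold QQ
  rw [div_eq_iff hd]
  linear_combination (2 * z ^ 2) * nu_sq' + h1

lemma w_rel {z : ℂ} (hz : ‖z‖ < 1) :
    (nu : ℂ) * z * (1 / (1 - nu * z)) = 1 / (1 - nu * z) - 1 := by
  have hd := den_ne hz
  field_simp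
  ring

lemma hasSum_Q1 {z : ℂ} (hz : ‖z‖ < 1) : HasSum (fun n => (q n : ℂ) * z ^ n) (QQ z) := by
  have h := ((hasSum_single_pow 0 1 z).add (hasSum_single_pow 1 (2 * nu) z)).sub (geo0 hz)
  have e : (1 : ℂ) * z ^ 0 + 2 * nu * z ^ 1 - 1 / (1 - nu * z) = QQ z := by
    rw [QQ_eq hz]
    ring
  rw [e] at h
  refine h.congr_fun (fun n => ?_)
  rcases n with _ | _ | n
  · simp [q_zero]
  · simp [q_one]; ring
  · rw [q_add_two]
    simp

lemma hasSum_Q2 {z : ℂ} (hz : ‖z‖ < 1) :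
    HasSum (fun n => ((tt n * q n : ℝ) : ℂ) * z ^ n) (QQ z ^ 2) := by
  have h := ((((hasSum_single_pow 0 5 z).add (hasSum_single_pow 1 (4 * nu) z)).add
    (hasSum_single_pow 2 (4 * nu ^ 2) z)).sub ((geo0 hz).mul_left 6)).add (geo1 hz)
  have e : (5 : ℂ) * z ^ 0 + 4 * nu * z ^ 1 + 4 * nu ^ 2 * z ^ 2 - 6 * (1 / (1 - nu * z)) +
      (1 / (1 - nu * z)) ^ 2 = QQ z ^ 2 := by
    rw [QQ_eq hz]
    linear_combination 4 * w_rel hz
  rw [e] at h
  refine h.congr_fun (fun n => ?_)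
  rcases n with _ | _ | _ | n
  · simp [q_zero]; norm_num
  · simp [q_one, tt]; ring
  · rw [q_add_two]
    simp [tt]
    ring
  · rw [show n + 1 + 1 + 1 = (n + 1) + 2 from rfl, q_add_two]
    simp [tt]
    ring

lemma hasSum_Q3 {z : ℂ} (hz : ‖z‖ < 1) :
    HasSum (fun n => ((ee n * q n : ℝ) : ℂ) * z ^ n) (QQ z ^ 3) := by
  have h := ((((((hasSum_single_pow 0 25 z).add (hasSum_single_pow 1 (18 * nu) z)).add
    (hasSum_single_pow 2 (12 * nu ^ 2) z)).add (hasSum_single_pow 3 (8 * nu ^ 3) z)).sub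
    ((geo0 hz).mul_left 33)).add ((geo1 hz).mul_left 9)).sub (geo2 hz)
  have e : (25 : ℂ) * z ^ 0 + 18 * nu * z ^ 1 + 12 * nu ^ 2 * z ^ 2 + 8 * nu ^ 3 * z ^ 3 -
      33 * (1 / (1 - nu * z)) + 9 * (1 / (1 - nu * z)) ^ 2 - (1 / (1 - nu * z)) ^ 3 =
      QQ z ^ 3 := by
    rw [QQ_eq hz]
    linear_combination (24 + 12 * (nu * z) - 6 * (1 / (1 - nu * z))) * w_rel hz
  rw [e] at h
  refine h.congr_fun (fun n => ?_)
  rcases n with _ | _ | _ | _ | n
  · simp [q_zero]; norm_num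
  · simp [q_one, ee]; ring
  · rw [q_add_two]
    simp [ee]
    ring
  · rw [show 0 + 1 + 1 + 1 = 1 + 2 from rfl, q_add_two]
    simp [ee]
    ring
  · rw [show n + 1 + 1 + 1 + 1 = (n + 2) + 2 from rfl, q_add_two]
    simp [ee]
    ring

lemma norm_QQ_lt {z : ℂ} (hz : ‖z‖ < 1) : ‖QQ z‖ < 1 := by
  have h1 : ‖(nu : ℂ) - z‖ ≤ ‖(1 : ℂ) - nu * z‖ := by
    rw [← abs_norm, ← abs_norm (1 - (nu : ℂ) * z), ← sq_le_sq, ← Complex.normSq_eq_norm_sq,
      ← Complex.normSq_eq_norm_sq, Complex.normSq_apply, Complex.normSq_apply]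
    have h2 : ‖z‖ ^ 2 < 1 := by
      have := norm_nonneg z
      nlinarith
    rw [← Complex.normSq_eq_norm_sq, Complex.normSq_apply] at h2
    simp
    nlinarith [nu_sq, nu_pos]
  have h3 : 0 < ‖(1 : ℂ) - nu * z‖ := norm_pos_iff.2 (den_ne hz)
  unfold QQ
  rw [norm_div, norm_mul, div_lt_one h3]
  have h4 := norm_nonneg z
  nlinarith [norm_nonneg ((nu : ℂ) - z)]

lemma den2_ne {l : ℝ} (h0 : 0 ≤ l) (h1 : l ≤ 1 / 2) {w : ℂ} (hw : ‖w‖ < 1) :
    1 / 2 ≤ ‖1 + (l : ℂ) * w‖ := by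
  have h2 : ‖(l : ℂ) * w‖ ≤ 1 / 2 := by
    rw [norm_mul, Complex.norm_real, Real.norm_eq_abs, abs_of_nonneg h0]
    have := norm_nonneg w
    nlinarith
  have h3 := norm_sub_norm_le (1 : ℂ) (-((l : ℂ) * w))
  rw [norm_one, norm_neg, sub_neg_eq_add] at h3
  linarith

/-- The comparison function. -/
noncomputable def FF (l : ℝ) (z : ℂ) : ℂ := (l + I * QQ z) / (1 + l * (I * QQ z))

/-- Half of the remainder. -/
noncomputable def RR (l : ℝ) (z : ℂ) : ℂ := QQ z ^ 4 / (2 * (1 + l * (I * QQ z)))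

lemma norm_IQ {z : ℂ} (hz : ‖z‖ < 1) : ‖I * QQ z‖ < 1 := by
  rw [norm_mul, Complex.norm_I, one_mul]
  exact norm_QQ_lt hz

lemma diff_QQ : DifferentiableOn ℂ QQ (ball 0 1) := by
  unfold QQ
  refine DifferentiableOn.div (by fun_prop) (by fun_prop) (fun z hz => ?_)
  exact den_ne (by simpa using hz)

lemma den3_ne {l : ℝ} (h0 : 0 ≤ l) (h1 : l ≤ 1 / 2) {z : ℂ} (hz : ‖z‖ < 1) :
    1 + (l : ℂ) * (I * QQ z) ≠ 0 := by
  have := den2_ne h0 h1 (norm_IQ hz)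
  exact norm_pos_iff.1 (by linarith)

lemma diff_FF {l : ℝ} (h0 : 0 ≤ l) (h1 : l ≤ 1 / 2) : DifferentiableOn ℂ (FF l) (ball 0 1) := by
  have hQ := diff_QQ
  unfold FF
  refine DifferentiableOn.div ?_ ?_ (fun z hz => ?_)
  · exact (differentiableOn_const _).add ((differentiableOn_const _).mul hQ)
  · exact (differentiableOn_const _).add ((differentiableOn_const _).mul
      ((differentiableOn_const _).mul hQ))
  · exact den3_ne h0 h1 (by simpa using hz)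

lemma diff_RR {l : ℝ} (h0 : 0 ≤ l) (h1 : l ≤ 1 / 2) : DifferentiableOn ℂ (RR l) (ball 0 1) := by
  have hQ := diff_QQ
  unfold RR
  refine DifferentiableOn.div (hQ.pow 4) ?_ (fun z hz => ?_)
  · exact (differentiableOn_const _).mul ((differentiableOn_const _).add
      ((differentiableOn_const _).mul ((differentiableOn_const _).mul hQ)))
  · exact mul_ne_zero two_ne_zero (den3_ne h0 h1 (by simpa using hz))

lemma norm_RR_le {l : ℝ} (h0 : 0 ≤ l) (h1 : l ≤ 1 / 2) {z : ℂ} (hz : ‖z‖ < 1) :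
    ‖RR l z‖ ≤ 1 := by
  have h2 := den2_ne h0 h1 (norm_IQ hz)
  unfold RR
  rw [norm_div, norm_pow, norm_mul, Complex.norm_ofNat, div_le_one (by linarith)]
  have h3 : ‖QQ z‖ ^ 4 ≤ 1 := pow_le_one₀ (norm_nonneg _) (norm_QQ_lt hz).le
  linarith

lemma norm_tc_RR_le {l : ℝ} (h0 : 0 ≤ l) (h1 : l ≤ 1 / 2) (n : ℕ) : ‖tc (RR l) n‖ ≤ 1 := by
  have h2 := sum_sq_le (diff_RR h0 h1) (fun z hz => norm_RR_le h0 h1 hz) (n + 1)
  have h3 : ‖tc (RR l) n‖ ^ 2 ≤ 1 := by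
    refine le_trans ?_ h2
    exact Finset.single_le_sum (f := fun i => ‖tc (RR l) i‖ ^ 2) (fun _ _ => sq_nonneg _)
      (Finset.self_mem_range_succ n)
  have := norm_nonneg (tc (RR l) n)
  nlinarith

lemma FF_mem {l : ℝ} (h0 : 0 ≤ l) (h1 : l ≤ 1 / 2) : FF l ∈ FClass l := by
  refine ⟨diff_FF h0 h1, fun z hz => ?_, ?_⟩
  · have hz' : ‖z‖ < 1 := by simpa using hz
    have hw := norm_IQ hz'
    have hd := den2_ne h0 h1 hw
    unfold FF
    set w := I * QQ z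
    rw [norm_div, div_lt_one (by linarith)]
    rw [← abs_norm, ← abs_norm (1 + (l : ℂ) * w), ← sq_lt_sq, ← Complex.normSq_eq_norm_sq,
      ← Complex.normSq_eq_norm_sq, Complex.normSq_apply, Complex.normSq_apply]
    have h2 : ‖w‖ ^ 2 < 1 := by
      have := norm_nonneg w
      nlinarith
    rw [← Complex.normSq_eq_norm_sq, Complex.normSq_apply] at h2
    have h5 : 0 < (1 - l ^ 2) * (1 - (w.re * w.re + w.im * w.im)) :=
      mul_pos (by nlinarith) (by linarith)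
    simp
    nlinarith [h5]
  · simp [FF, QQ]

lemma FF_expand {l : ℝ} (h0 : 0 ≤ l) (h1 : l ≤ 1 / 2) {z : ℂ} (hz : ‖z‖ < 1) :
    FF l z = l + (1 - (l : ℂ) ^ 2) * (I * QQ z + l * QQ z ^ 2 - I * l ^ 2 * QQ z ^ 3 -
      2 * l ^ 3 * RR l z) := by
  have hd := den3_ne h0 h1 hz
  have hR : RR l z * (1 + (l : ℂ) * (I * QQ z)) = QQ z ^ 4 / 2 := by
    unfold RR
    rw [div_mul_eq_mul_div, div_eq_div_iff (mul_ne_zero two_ne_zero hd) two_ne_zero]
    ring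
  have hI : I ^ 2 = -1 := Complex.I_sq
  unfold FF
  rw [div_eq_iff hd]
  linear_combination (1 - (l : ℂ) ^ 2) * (-l * QQ z ^ 2 + l ^ 3 * QQ z ^ 4) * hI +
    2 * l ^ 3 * (1 - (l : ℂ) ^ 2) * hR

lemma tc_FF {l : ℝ} (h0 : 0 ≤ l) (h1 : l ≤ 1 / 2) (n : ℕ) :
    tc (FF l) n = (if n = 0 then (l : ℂ) else 0) + (1 - (l : ℂ) ^ 2) * (I * q n +
      l * (tt n * q n : ℝ) - I * l ^ 2 * (ee n * q n : ℝ) - 2 * l ^ 3 * tc (RR l) n) := by
  refine tc_eq (c := fun n => (if n = 0 then (l : ℂ) else 0) + (1 - (l : ℂ) ^ 2) * (I * q n +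
      l * (tt n * q n : ℝ) - I * l ^ 2 * (ee n * q n : ℝ) - 2 * l ^ 3 * tc (RR l) n))
      (fun z hz => ?_) n
  rw [FF_expand h0 h1 hz]
  have hR := tc_hasSum (diff_RR h0 h1) hz
  have h := (hasSum_single_pow 0 (l : ℂ) z).add
    ((((((hasSum_Q1 hz).mul_left I).add ((hasSum_Q2 hz).mul_left (l : ℂ))).sub
      ((hasSum_Q3 hz).mul_left (I * l ^ 2))).sub (hR.mul_left (2 * (l : ℂ) ^ 3))).mul_left
        (1 - (l : ℂ) ^ 2))
  rw [pow_zero, mul_one] at h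
  refine h.congr_fun (fun n => ?_)
  ring

end Pool.Agent.P187o
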