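import Mathlib
import Pool.Agent.Lib.P187o.UpperFun

/-!
# The upper bound for the radius
-/

set_option autoImplicit false

open Complex Metric
open scoped ComplexConjugate
open Pool.Agent.P187f6b

namespace Pool.Agent.P187o

lemma sqrt_lb {y : ℝ} : 1 + y / 2 - y ^ 2 / 2 ≤ √(1 + y) := by
  rcases le_or_gt y (-1) with h | h
  · refine le_trans ?_ (Real.sqrt_nonneg _)
    nlinarith
  · rcases le_or_gt y 2 with h2 | h2
    · refine Real.le_sqrt_of_sq_le ?_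
      have e : (1 + y / 2 - y ^ 2 / 2) ^ 2 = (1 + y) - (1 + y) * (y ^ 2 * (3 - y)) / 4 := by ring
      rw [e]
      have : 0 ≤ (1 + y) * (y ^ 2 * (3 - y)) :=
        mul_nonneg (by linarith) (mul_nonneg (sq_nonneg _) (by linarith))
      linarith
    · refine le_trans ?_ (Real.sqrt_nonneg _)
      nlinarith

lemma abs_tt_le (n : ℕ) : |tt (n + 1)| ≤ 5 * ((n : ℝ) + 1) := by
  have hn : (0 : ℝ) ≤ n := Nat.cast_nonneg n
  unfold tt
  split_ifs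
  · rw [abs_zero]; positivity
  · rw [abs_neg, abs_one]; linarith
  · push_cast
    rw [abs_le]
    constructor <;> linarith

lemma abs_ee_le (n : ℕ) : |ee (n + 1)| ≤ 25 * ((n : ℝ) + 1) ^ 2 := by
  have hn : (0 : ℝ) ≤ n := Nat.cast_nonneg n
  unfold ee
  split_ifs
  · rw [abs_neg, abs_one]; nlinarith
  · rw [abs_zero]; positivity
  · push_cast
    rw [abs_le]
    constructor <;> nlinarith

/-- Second order coefficients of the moduli. -/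
noncomputable def HH (n : ℕ) : ℝ := tt n ^ 2 / 2 - ee n

lemma abs_HH_le (n : ℕ) : |HH (n + 1)| ≤ 38 * ((n : ℝ) + 1) ^ 2 := by
  have h1 := abs_tt_le n
  have h2 := abs_ee_le n
  have h3 : tt (n + 1) ^ 2 ≤ (5 * ((n : ℝ) + 1)) ^ 2 := by
    rw [← sq_abs]; exact pow_le_pow_left₀ (abs_nonneg _) h1 2
  have h4 := sq_nonneg (tt (n + 1))
  unfold HH
  rw [abs_le] at h2 ⊢
  constructor <;> nlinarith [h2.1, h2.2]

lemma hasSum_HH : HasSum (fun n : ℕ => (nu ^ (n + 1)) ^ 2 * HH (n + 1)) (1 / 2) := by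
  have h0 : HasSum (fun n : ℕ => (nu ^ (n + 1)) ^ 2 * ((n : ℝ) - 1)) 0 := by
    have := hasSum_w_one.sub (hasSum_w.mul_left 2)
    norm_num at this
    refine this.congr_fun (fun n => ?_)
    ring
  have h1 : HasSum (fun n : ℕ => (nu ^ (n + 3 + 1)) ^ 2 * HH (n + 3 + 1)) (5 / 16 * 0) := by
    refine (h0.mul_left (5 / 16)).congr_fun (fun n => ?_)
    have e1 : (nu ^ (n + 3 + 1)) ^ 2 = (nu ^ (n + 1)) ^ 2 * (nu ^ 2) ^ 3 := by ring
    have e2 : HH (n + 3 + 1) = 5 / 2 * ((n : ℝ) - 1) := by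
      unfold HH tt ee
      rw [if_neg (by omega), if_neg (by omega), if_neg (by omega), if_neg (by omega)]
      push_cast
      ring
    rw [e1, e2, nu_sq]
    ring
  have h2 := (hasSum_nat_add_iff (f := fun n : ℕ => (nu ^ (n + 1)) ^ 2 * HH (n + 1)) 3).1 h1
  have e3 : 5 / 16 * 0 + ∑ i ∈ Finset.range 3, (nu ^ (i + 1)) ^ 2 * HH (i + 1) = 1 / 2 := by
    simp only [Finset.sum_range_succ, Finset.sum_range_zero, zero_add, HH, tt, ee]
    have e4 : (nu ^ (1 + 1)) ^ 2 = (nu ^ 2) ^ 2 := by ring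
    have e5 : (nu ^ (2 + 1)) ^ 2 = (nu ^ 2) ^ 3 := by ring
    rw [e4, e5, nu_sq]
    norm_num
  rw [e3] at h2
  exact h2

lemma summ_w_pow (k : ℕ) : Summable fun n : ℕ => (nu ^ (n + 1)) ^ 2 * ((n : ℝ) + 1) ^ k := by
  have h1 : Summable fun n : ℕ => ((n : ℝ) ^ k * (1 / 2 : ℝ) ^ n) :=
    summable_pow_mul_geometric_of_norm_lt_one k (by norm_num)
  have h2 := (summable_nat_add_iff (f := fun n : ℕ => ((n : ℝ) ^ k * (1 / 2 : ℝ) ^ n)) 1).2 h1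
  refine h2.congr (fun n => ?_)
  rw [← pow_mul nu, mul_comm (n + 1) 2, pow_mul, nu_sq]
  push_cast
  ring

lemma norm_lower {l : ℝ} (h0 : 0 ≤ l) (h1 : l ≤ 1 / 2) (n : ℕ) :
    (1 - l ^ 2) * (nu ^ (n + 1) * (1 + l ^ 2 * HH (n + 1) - l ^ 4 * (245000 * ((n : ℝ) + 1) ^ 8)) -
      2 * l ^ 3) ≤ ‖tc (FF l) (n + 1)‖ := by
  have hl2 : 0 ≤ 1 - l ^ 2 := by nlinarith
  rw [tc_FF h0 h1 (n + 1), if_neg (by omega), zero_add, norm_mul]
  have e1 : ‖(1 : ℂ) - (l : ℂ) ^ 2‖ = 1 - l ^ 2 := by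
    have : (1 : ℂ) - (l : ℂ) ^ 2 = ((1 - l ^ 2 : ℝ) : ℂ) := by push_cast; ring
    rw [this, Complex.norm_real, Real.norm_eq_abs, abs_of_nonneg hl2]
  rw [e1]
  refine mul_le_mul_of_nonneg_left ?_ hl2
  set t := tt (n + 1) with ht
  set e := ee (n + 1) with he
  have e2 : I * (q (n + 1) : ℂ) + l * ((t * q (n + 1) : ℝ) : ℂ) -
      I * l ^ 2 * ((e * q (n + 1) : ℝ) : ℂ) - 2 * l ^ 3 * tc (RR l) (n + 1) =
      (q (n + 1) : ℂ) * (((l * t : ℝ) : ℂ) + ((1 - l ^ 2 * e : ℝ) : ℂ) * I) -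
        2 * l ^ 3 * tc (RR l) (n + 1) := by
    push_cast; ring
  rw [e2]
  have h2 := norm_sub_norm_le ((q (n + 1) : ℂ) * (((l * t : ℝ) : ℂ) +
    ((1 - l ^ 2 * e : ℝ) : ℂ) * I)) (2 * l ^ 3 * tc (RR l) (n + 1))
  have h3 : ‖(2 : ℂ) * l ^ 3 * tc (RR l) (n + 1)‖ ≤ 2 * l ^ 3 := by
    rw [norm_mul, norm_mul, norm_pow, Complex.norm_real, Real.norm_eq_abs, abs_of_nonneg h0,
      Complex.norm_ofNat]
    exact mul_le_of_le_one_right (by positivity) (norm_tc_RR_le h0 h1 _)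
  have h4 : ‖(q (n + 1) : ℂ) * (((l * t : ℝ) : ℂ) + ((1 - l ^ 2 * e : ℝ) : ℂ) * I)‖ =
      nu ^ (n + 1) * √(1 + (l ^ 2 * (t ^ 2 - 2 * e) + l ^ 4 * e ^ 2)) := by
    rw [norm_mul, Complex.norm_real, Real.norm_eq_abs, abs_q, Complex.norm_add_mul_I]
    congr 2
    ring
  rw [h4] at h2
  set y := l ^ 2 * (t ^ 2 - 2 * e) + l ^ 4 * e ^ 2 with hy
  have h5 := sqrt_lb (y := y)
  have hp : 0 < nu ^ (n + 1) := pow_pos nu_pos _
  have hN : (1 : ℝ) ≤ (n : ℝ) + 1 := by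
    have : (0 : ℝ) ≤ n := Nat.cast_nonneg n
    linarith
  have ht1 := abs_tt_le n
  have he1 := abs_ee_le n
  rw [← ht] at ht1
  rw [← he] at he1
  set N : ℝ := (n : ℝ) + 1 with hNdef
  have ht2 : t ^ 2 ≤ (5 * N) ^ 2 := by
    rw [← sq_abs]; exact pow_le_pow_left₀ (abs_nonneg _) ht1 2
  have he2 : e ^ 2 ≤ (25 * N ^ 2) ^ 2 := by
    rw [← sq_abs e]; exact pow_le_pow_left₀ (abs_nonneg _) he1 2
  have hN2 : N ^ 2 ≤ N ^ 4 := pow_le_pow_right₀ hN (by norm_num)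
  have hl4 : l ^ 4 ≤ l ^ 2 := pow_le_pow_of_le_one h0 (by linarith) (by norm_num)
  have hyabs : |y| ≤ l ^ 2 * (700 * N ^ 4) := by
    have h6 : |l ^ 2 * (t ^ 2 - 2 * e)| ≤ l ^ 2 * (75 * N ^ 4) := by
      rw [abs_mul, abs_of_nonneg (sq_nonneg l)]
      refine mul_le_mul_of_nonneg_left ?_ (sq_nonneg l)
      rw [abs_le] at he1 ⊢
      constructor <;> nlinarith [sq_nonneg t, he1.1, he1.2]
    have h7 : |l ^ 4 * e ^ 2| ≤ l ^ 2 * (625 * N ^ 4) := by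
      rw [abs_of_nonneg (by positivity)]
      refine mul_le_mul hl4 ?_ (sq_nonneg e) (sq_nonneg l)
      nlinarith
    have h8 := abs_add_le (l ^ 2 * (t ^ 2 - 2 * e)) (l ^ 4 * e ^ 2)
    rw [hy]
    linarith
  have hy2 : y ^ 2 ≤ l ^ 4 * (490000 * N ^ 8) := by
    rw [← sq_abs]
    refine (pow_le_pow_left₀ (abs_nonneg _) hyabs 2).trans (le_of_eq ?_)
    ring
  have hHH : HH (n + 1) = t ^ 2 / 2 - e := rfl
  have h9 : 1 + l ^ 2 * HH (n + 1) - l ^ 4 * (245000 * N ^ 8) ≤ 1 + y / 2 - y ^ 2 / 2 := by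
    rw [hHH]
    have : 0 ≤ l ^ 4 * e ^ 2 := by positivity
    rw [hy] at hy2 ⊢
    linarith
  have h10 : nu ^ (n + 1) * (1 + l ^ 2 * HH (n + 1) - l ^ 4 * (245000 * N ^ 8)) ≤
      nu ^ (n + 1) * √(1 + y) := mul_le_mul_of_nonneg_left (h9.trans h5) hp.le
  linarith

/-- The sum of the bounds. -/
noncomputable def KK : ℝ := 38 * (∑' n : ℕ, (nu ^ (n + 1)) ^ 2 * ((n : ℝ) + 1) ^ 3) +
  245000 * (∑' n : ℕ, (nu ^ (n + 1)) ^ 2 * ((n : ℝ) + 1) ^ 8) + 2 * ∑' n : ℕ, nu ^ (n + 1)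

lemma summ_nu_one : Summable fun n : ℕ => nu ^ (n + 1) := by
  have := (summable_geometric_of_lt_one nu_pos.le nu_lt_one).mul_left nu
  refine this.congr (fun n => ?_)
  rw [pow_succ]; ring

lemma KK_nonneg : 0 ≤ KK := by
  have := nu_pos
  unfold KK
  have h1 : 0 ≤ ∑' n : ℕ, (nu ^ (n + 1)) ^ 2 * ((n : ℝ) + 1) ^ 3 :=
    tsum_nonneg (fun n => by positivity)
  have h2 : 0 ≤ ∑' n : ℕ, (nu ^ (n + 1)) ^ 2 * ((n : ℝ) + 1) ^ 8 :=
    tsum_nonneg (fun n => by positivity)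
  have h3 : 0 ≤ ∑' n : ℕ, nu ^ (n + 1) := tsum_nonneg (fun n => by positivity)
  linarith

lemma sum_lower {l σ : ℝ} (h0 : 0 < l) (h1 : l ≤ 1 / 2) (hσ : 0 ≤ σ) (hσl : σ ≤ l) :
    (1 - l ^ 2) * ((1 - σ) / (1 + σ) + l ^ 2 / 2 - l ^ 3 * KK) ≤
      ∑' n : ℕ, ‖tc (FF l) (n + 1)‖ * (nu * (1 - σ)) ^ (n + 1) := by
  have hl2 : 0 ≤ 1 - l ^ 2 := by nlinarith
  have hnu := nu_pos
  have hr0 : 0 ≤ nu * (1 - σ) := mul_nonneg hnu.le (by linarith)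
  have hr1 : nu * (1 - σ) < 1 := by
    have := nu_lt_one
    nlinarith
  have hsum : Summable fun n : ℕ => ‖tc (FF l) (n + 1)‖ * (nu * (1 - σ)) ^ (n + 1) :=
    (summable_nat_add_iff (f := fun n : ℕ => ‖tc (FF l) n‖ * (nu * (1 - σ)) ^ n) 1).2
      (tc_summable (diff_FF h0.le h1) hr0 hr1)
  have hA := hasSum_w_geom (s := 1 - σ) (by linarith) (by linarith)
  rw [show 2 - (1 - σ) = 1 + σ by ring] at hA
  have hB := ((((hA.add (hasSum_HH.mul_left (l ^ 2))).sub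
    ((summ_w_pow 3).hasSum.mul_left (38 * l ^ 2 * σ))).sub
    ((summ_w_pow 8).hasSum.mul_left (245000 * l ^ 4))).sub
    (summ_nu_one.hasSum.mul_left (2 * l ^ 3))).mul_left (1 - l ^ 2)
  have hle := hB.summable.tsum_le_tsum (fun n => ?_) hsum
  · rw [hB.tsum_eq] at hle
    refine le_trans ?_ hle
    refine mul_le_mul_of_nonneg_left ?_ hl2
    have e3 : 0 ≤ ∑' n : ℕ, (nu ^ (n + 1)) ^ 2 * ((n : ℝ) + 1) ^ 3 :=
      tsum_nonneg (fun n => by positivity)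
    have e8 : 0 ≤ ∑' n : ℕ, (nu ^ (n + 1)) ^ 2 * ((n : ℝ) + 1) ^ 8 :=
      tsum_nonneg (fun n => by positivity)
    have e4 : 38 * l ^ 2 * σ ≤ 38 * l ^ 3 := by
      have : l ^ 2 * σ ≤ l ^ 2 * l := mul_le_mul_of_nonneg_left hσl (sq_nonneg l)
      nlinarith
    have e5 : 245000 * l ^ 4 ≤ 245000 * l ^ 3 := by
      have : l ^ 4 ≤ l ^ 3 := pow_le_pow_of_le_one h0.le (by linarith) (by norm_num)
      linarith
    have e6 := mul_le_mul_of_nonneg_right e4 e3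
    have e7 := mul_le_mul_of_nonneg_right e5 e8
    unfold KK
    linarith
  · have h3 := norm_lower h0.le h1 n
    have hs0 : 0 ≤ (1 - σ) ^ (n + 1) := pow_nonneg (by linarith) _
    have hs1 : (1 - σ) ^ (n + 1) ≤ 1 := pow_le_one₀ (by linarith) (by linarith)
    have hs2 := one_add_mul_le_pow (a := -σ) (by linarith) (n + 1)
    rw [← sub_eq_add_neg] at hs2
    push_cast at hs2
    have hH := abs_HH_le n
    set N : ℝ := (n : ℝ) + 1 with hN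
    have hN1 : 1 ≤ N := by
      have : (0 : ℝ) ≤ n := Nat.cast_nonneg n
      rw [hN]; linarith
    set S := (1 - σ) ^ (n + 1) with hS
    set w := nu ^ (n + 1) with hw
    have hw0 : 0 < w := pow_pos hnu _
    have h4 := mul_le_mul_of_nonneg_right h3 (pow_nonneg hr0 (n + 1))
    refine le_trans ?_ h4
    rw [mul_pow, ← hw, ← hS]
    have h5 : HH (n + 1) - 38 * N ^ 3 * σ ≤ S * HH (n + 1) := by
      have h6 : |(1 - S) * HH (n + 1)| ≤ (N * σ) * (38 * N ^ 2) := by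
        rw [abs_mul, abs_of_nonneg (by linarith : 0 ≤ 1 - S)]
        exact mul_le_mul (by linarith) hH (abs_nonneg _) (by positivity)
      have h7 := le_abs_self ((1 - S) * HH (n + 1))
      nlinarith
    have h8 : w ^ 2 * (l ^ 2 * (HH (n + 1) - 38 * N ^ 3 * σ)) ≤
        w ^ 2 * (l ^ 2 * (S * HH (n + 1))) :=
      mul_le_mul_of_nonneg_left (mul_le_mul_of_nonneg_left h5 (sq_nonneg l)) (sq_nonneg w)
    have h9 : w ^ 2 * (l ^ 4 * (245000 * N ^ 8)) * S ≤ w ^ 2 * (l ^ 4 * (245000 * N ^ 8)) * 1 :=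
      mul_le_mul_of_nonneg_left hs1 (by positivity)
    have h10 : 2 * l ^ 3 * w * S ≤ 2 * l ^ 3 * w * 1 :=
      mul_le_mul_of_nonneg_left hs1 (by positivity)
    have h11 : (1 - l ^ 2) * (w ^ 2 * S + l ^ 2 * (w ^ 2 * HH (n + 1)) -
        38 * l ^ 2 * σ * (w ^ 2 * N ^ 3) - 245000 * l ^ 4 * (w ^ 2 * N ^ 8) - 2 * l ^ 3 * w) ≤
        (1 - l ^ 2) * ((w * (1 + l ^ 2 * HH (n + 1) - l ^ 4 * (245000 * N ^ 8)) -
          2 * l ^ 3) * (w * S)) := by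
      refine mul_le_mul_of_nonneg_left ?_ hl2
      nlinarith [h8, h9, h10]
    refine h11.trans (le_of_eq ?_)
    ring

theorem maj_gt {l : ℝ} (h0 : 0 < l) (h1 : l ≤ 1 / 2) (h2 : (KK + 1) * l ^ 2 ≤ 1 / 2) :
    1 < maj l (FF l) (nu * (1 - (l / 2 - (KK + 1) * l ^ 3))) := by
  have hK := KK_nonneg
  set C := KK + 1 with hC
  have e1 : C * l ^ 3 = l * (C * l ^ 2) := by ring
  have hσ : 0 ≤ l / 2 - C * l ^ 3 := by
    rw [e1]
    nlinarith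
  have hσl : l / 2 - C * l ^ 3 ≤ l / 2 := by
    have : 0 ≤ C * l ^ 3 := by positivity
    linarith
  have h3 := sum_lower h0 h1 hσ (by linarith)
  have h4 : maj l (FF l) (nu * (1 - (l / 2 - C * l ^ 3))) =
      l + ∑' n : ℕ, ‖tc (FF l) (n + 1)‖ * (nu * (1 - (l / 2 - C * l ^ 3))) ^ (n + 1) := rfl
  rw [h4]
  set σ := l / 2 - C * l ^ 3 with hσdef
  have h5 : 1 - 2 * σ + 2 * σ ^ 2 - 2 * σ ^ 3 ≤ (1 - σ) / (1 + σ) := by
    rw [le_div_iff₀ (by linarith)]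
    nlinarith [sq_nonneg (σ ^ 2)]
  have h6 : σ ^ 3 ≤ (l / 2) ^ 3 := pow_le_pow_left₀ hσ hσl 3
  have h7 : l ^ 2 / 4 - C * l ^ 4 ≤ σ ^ 2 := by
    have : σ ^ 2 = l ^ 2 / 4 - C * l ^ 4 + (C * l ^ 3) ^ 2 := by rw [hσdef]; ring
    rw [this]
    nlinarith [sq_nonneg (C * l ^ 3)]
  have h8 : C * l ^ 4 ≤ C * l ^ 3 * (1 / 2) := by
    have : C * l ^ 4 = C * l ^ 3 * l := by ring
    rw [this]
    exact mul_le_mul_of_nonneg_left h1 (by positivity)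
  have h9 : 1 - l + l ^ 2 ≤ (1 - σ) / (1 + σ) + l ^ 2 / 2 - l ^ 3 * KK := by
    have hKC : KK = C - 1 := by rw [hC]; ring
    rw [hKC]
    have : 0 < l ^ 3 := by positivity
    have h10 : (l / 2) ^ 3 = l ^ 3 / 8 := by ring
    rw [h10] at h6
    rw [hσdef] at h5 h6 h7 ⊢
    nlinarith [h5, h6, h7, h8]
  have h10 : (1 - l ^ 2) * (1 - l + l ^ 2) ≤
      (1 - l ^ 2) * ((1 - σ) / (1 + σ) + l ^ 2 / 2 - l ^ 3 * KK) :=
    mul_le_mul_of_nonneg_left h9 (by nlinarith)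
  have h11 : (1 - l ^ 2) * (1 - l + l ^ 2) = 1 - l + l ^ 3 * (1 - l) := by ring
  have h12 : 0 < l ^ 3 * (1 - l) := mul_pos (by positivity) (by linarith)
  linarith

lemma maj_mono {l : ℝ} {f : ℂ → ℂ} (hf : f ∈ FClass l) {r s : ℝ} (hr : 0 ≤ r) (hrs : r ≤ s)
    (hs : s < 1) : maj l f r ≤ maj l f s := by
  have h4 : ∀ r, maj l f r = l + ∑' n : ℕ, ‖tc f (n + 1)‖ * r ^ (n + 1) := fun _ => rfl
  rw [h4, h4]
  have hsum : ∀ r, 0 ≤ r → r < 1 → Summable fun n : ℕ => ‖tc f (n + 1)‖ * r ^ (n + 1) :=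
    fun r h0 h1 => (summable_nat_add_iff (f := fun n : ℕ => ‖tc f n‖ * r ^ n) 1).2
      (tc_summable hf.1 h0 h1)
  have := (hsum r hr (by linarith)).tsum_le_tsum (fun n => ?_) (hsum s (by linarith) hs)
  · linarith
  · exact mul_le_mul_of_nonneg_left (pow_le_pow_left₀ hr hrs _) (norm_nonneg _)

theorem upper {l : ℝ} (h0 : 0 < l) (h1 : l ≤ 1 / 2) (h2 : (KK + 1) * l ^ 2 ≤ 1 / 2) :
    BB l ≤ nu * (1 - (l / 2 - (KK + 1) * l ^ 3)) := by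
  have hK := KK_nonneg
  have h3 := maj_gt h0 h1 h2
  have hσ : 0 ≤ l / 2 - (KK + 1) * l ^ 3 := by
    have e1 : (KK + 1) * l ^ 3 = l * ((KK + 1) * l ^ 2) := by ring
    rw [e1]
    nlinarith
  have hσl : l / 2 - (KK + 1) * l ^ 3 ≤ 1 := by
    have : 0 ≤ (KK + 1) * l ^ 3 := by positivity
    linarith
  have hr0 : 0 ≤ nu * (1 - (l / 2 - (KK + 1) * l ^ 3)) := mul_nonneg nu_pos.le (by linarith)
  refine Real.sSup_le (fun r hr => ?_) hr0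
  by_contra hcon
  rw [not_le] at hcon
  have h4 := maj_mono (FF_mem h0.le h1) hr0 hcon.le hr.2.1
  have h5 := hr.2.2 (FF l) (FF_mem h0.le h1)
  linarith

end Pool.Agent.P187o
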