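import Mathlib
import Pool.Agent.Lib.P187o.Rel

/-!
# Decay of a sequence satisfying the approximate linear relations
-/

set_option autoImplicit false

namespace Pool.Agent.P187o

lemma summable_nu_mul {b : ℕ → ℝ} (hb : Summable fun n => b n ^ 2) :
    Summable fun n => nu ^ n * b n := by
  refine Summable.of_norm_bounded (g := fun n => (1 / 2 : ℝ) * (nu ^ n) ^ 2 + (1 / 2) * b n ^ 2)
    ((hasSum_nu_sq _).summable.add (hb.mul_left _)) (fun n => ?_)
  rw [Real.norm_eq_abs, abs_le]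
  constructor
  · nlinarith [sq_nonneg (nu ^ n + b n)]
  · nlinarith [sq_nonneg (nu ^ n - b n)]

/-- The relations in terms of the tails of `nu ^ n * b n`. -/
lemma tails {b : ℕ → ℝ} (hb : Summable fun n => b n ^ 2) {θ ℓ δ : ℝ} (hθ : |θ| ≤ 1)
    (h0 : |b 0| ≤ ℓ)
    (hrel : ∀ m : ℕ, 1 ≤ m →
      |∑' n, b (n + m) * q n + θ * ∑' n, b n * q (n + m)| ≤ 2 * δ) :
    ∀ m : ℕ, 1 ≤ m →
      |(∑' n, nu ^ (n + (m + 1)) * b (n + (m + 1))) - 2 * (∑' n, nu ^ (n + (m + 2)) * b (n + (m + 2)))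
        - θ * nu ^ (2 * m) * ∑' n, nu ^ (n + 1) * b (n + 1)| ≤
        2 * nu ^ m * δ + nu ^ (2 * m) * ℓ := by
  intro m hm
  have hz := summable_nu_mul hb
  have hs := fun k => (summable_nat_add_iff (f := fun n => nu ^ n * b n) k).2 hz
  have e1 : ∑' n, nu ^ (n + (m + 1)) * b (n + (m + 1)) =
      nu ^ (m + 1) * b (m + 1) + ∑' n, nu ^ (n + (m + 2)) * b (n + (m + 2)) := by
    rw [(hs (m + 1)).tsum_eq_zero_add]
    simp only [zero_add]
    congr 1
    refine tsum_congr (fun n => ?_)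
    rw [show n + 1 + (m + 1) = n + (m + 2) by ring]
  have hb1 : Summable fun n => b (n + m) * q n := by
    have hb2 : Summable fun n => b (n + m) ^ 2 :=
      (summable_nat_add_iff (f := fun n => b n ^ 2) m).2 hb
    refine Summable.of_norm_bounded
      (g := fun n => (1 / 2 : ℝ) * (q n * q n) + (1 / 2) * b (n + m) ^ 2)
      ((hasSum_q_sq.summable.mul_left _).add (hb2.mul_left _)) (fun n => ?_)
    rw [Real.norm_eq_abs, abs_le]
    constructor
    · nlinarith [sq_nonneg (q n + b (n + m))]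
    · nlinarith [sq_nonneg (q n - b (n + m))]
  have hb3 : Summable fun n => b n * q (n + m) := by
    have hq2 : Summable fun n => q (n + m) * q (n + m) :=
      (summable_nat_add_iff (f := fun n => q n * q n) m).2 hasSum_q_sq.summable
    refine Summable.of_norm_bounded
      (g := fun n => (1 / 2 : ℝ) * (q (n + m) * q (n + m)) + (1 / 2) * b n ^ 2)
      ((hq2.mul_left _).add (hb.mul_left _)) (fun n => ?_)
    rw [Real.norm_eq_abs, abs_le]
    constructor
    · nlinarith [sq_nonneg (q (n + m) + b n)]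
    · nlinarith [sq_nonneg (q (n + m) - b n)]
  have e2 : nu ^ m * ∑' n, b (n + m) * q n =
      nu ^ (m + 1) * b (m + 1) - ∑' n, nu ^ (n + (m + 2)) * b (n + (m + 2)) := by
    rw [← hb1.sum_add_tsum_nat_add 2, Finset.sum_range_succ, Finset.sum_range_one, q_zero, q_one,
      mul_zero, zero_add, mul_add, ← tsum_mul_left]
    have e3 : ∑' n, nu ^ m * (b (n + 2 + m) * q (n + 2)) =
        -∑' n, nu ^ (n + (m + 2)) * b (n + (m + 2)) := by
      rw [← tsum_neg]
      refine tsum_congr (fun n => ?_)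
      rw [q_add_two, show n + 2 + m = n + (m + 2) by ring]
      ring
    rw [e3, add_comm 1 m]
    ring
  have e4 : nu ^ m * ∑' n, b n * q (n + m) =
      nu ^ m * b 0 * q m - nu ^ (2 * m) * ∑' n, nu ^ (n + 1) * b (n + 1) := by
    obtain ⟨k, rfl⟩ : ∃ k, m = k + 1 := ⟨m - 1, by omega⟩
    rw [hb3.tsum_eq_zero_add, zero_add, mul_add, ← tsum_mul_left, ← tsum_mul_left]
    have e5 : ∑' n, nu ^ (k + 1) * (b (n + 1) * q (n + 1 + (k + 1))) =
        -∑' n, nu ^ (2 * (k + 1)) * (nu ^ (n + 1) * b (n + 1)) := by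
      rw [← tsum_neg]
      refine tsum_congr (fun n => ?_)
      rw [show n + 1 + (k + 1) = (n + k) + 2 by ring, q_add_two]
      ring
    rw [e5]
    ring
  have h3 := hrel m hm
  have hnm : 0 < nu ^ m := pow_pos nu_pos m
  have h4 : |nu ^ m * ∑' n, b (n + m) * q n + θ * (nu ^ m * ∑' n, b n * q (n + m))| ≤
      nu ^ m * (2 * δ) := by
    have e : nu ^ m * ∑' n, b (n + m) * q n + θ * (nu ^ m * ∑' n, b n * q (n + m)) =
        nu ^ m * (∑' n, b (n + m) * q n + θ * ∑' n, b n * q (n + m)) := by ring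
    rw [e, abs_mul, abs_of_pos hnm]
    exact mul_le_mul_of_nonneg_left h3 hnm.le
  rw [e2, e4] at h4
  have h5 : |θ * (nu ^ m * b 0 * q m)| ≤ nu ^ (2 * m) * ℓ := by
    have hq : |q m| = nu ^ m := by
      obtain ⟨k, rfl⟩ : ∃ k, m = k + 1 := ⟨m - 1, by omega⟩
      exact abs_q k
    rw [abs_mul, abs_mul, abs_mul, hq, abs_of_pos hnm]
    have hh : nu ^ m * |b 0| * nu ^ m ≤ nu ^ (2 * m) * ℓ := by
      rw [two_mul, pow_add]
      have : nu ^ m * |b 0| * nu ^ m = nu ^ m * nu ^ m * |b 0| := by ring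
      rw [this]
      exact mul_le_mul_of_nonneg_left h0 (by positivity)
    have hp : 0 ≤ nu ^ m * |b 0| * nu ^ m := by positivity
    calc |θ| * (nu ^ m * |b 0| * nu ^ m) ≤ 1 * (nu ^ m * |b 0| * nu ^ m) :=
          mul_le_mul_of_nonneg_right hθ hp
      _ ≤ nu ^ (2 * m) * ℓ := by rw [one_mul]; exact hh
  rw [e1]
  rw [abs_le] at h4 h5 ⊢
  constructor
  · linarith [h4.1, h5.2]
  · linarith [h4.2, h5.1]

theorem decay {b : ℕ → ℝ} (hb : Summable fun n => b n ^ 2) {θ ℓ δ : ℝ}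
    (hθ : θ = 1 ∨ θ = -1) (hℓ : 0 ≤ ℓ) (hδ : 0 ≤ δ) (h0 : |b 0| ≤ ℓ) (h1 : |b 1| ≤ ℓ)
    (h2 : |b 2| ≤ ℓ)
    (hrel : ∀ m : ℕ, 1 ≤ m →
      |∑' n, b (n + m) * q n + θ * ∑' n, b n * q (n + m)| ≤ 2 * δ) (n : ℕ) (hn : 2 ≤ n) :
    |b n| ≤ 24 * n * nu ^ n * (δ + ℓ) + 13 * δ := by
  have hθ1 : |θ| ≤ 1 := by rcases hθ with h | h <;> simp [h]
  set T : ℕ → ℝ := fun k => ∑' n, nu ^ (n + k) * b (n + k) with hT
  have hz := summable_nu_mul hb
  have hs := fun k => (summable_nat_add_iff (f := fun n => nu ^ n * b n) k).2 hz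
  have hTs : ∀ k, T k = nu ^ k * b k + T (k + 1) := by
    intro k
    simp only [hT]
    rw [(hs k).tsum_eq_zero_add]
    simp only [zero_add]
    congr 1
    refine tsum_congr (fun n => ?_)
    rw [show n + 1 + k = n + (k + 1) by ring]
  have hrec : ∀ m : ℕ, 1 ≤ m → |T (m + 1) - 2 * T (m + 2) - θ * nu ^ (2 * m) * T 1| ≤
      2 * nu ^ m * δ + nu ^ (2 * m) * ℓ := tails hb hθ1 h0 hrel
  set τ := δ + ℓ with hτ
  have hnu := nu_lt
  have hnu' := lt_nu
  have hnu0 := nu_pos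
  have hnusq := nu_sq
  -- the first tails
  have hz1 : |nu * b 1| ≤ 0.7072 * ℓ := by
    rw [abs_mul, abs_of_pos hnu0]
    nlinarith [abs_nonneg (b 1)]
  have hz2 : |nu ^ 2 * b 2| ≤ 0.5 * ℓ := by
    rw [hnusq, abs_mul, abs_of_pos (by norm_num : (0 : ℝ) < 1 / 2)]
    linarith
  have hT1 : T 1 = nu * b 1 + T 2 := by
    have := hTs 1
    rw [pow_one] at this
    exact this
  have hT2 : T 2 = nu ^ 2 * b 2 + T 3 := hTs 2
  have hr1 := hrec 1 le_rfl
  simp only [pow_one, mul_one, Nat.reduceAdd] at hr1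
  rw [hnusq] at hr1
  have hT3 : |T 3| ≤ 4 * τ := by
    rw [abs_le] at hz1 hz2 hr1 ⊢
    rcases hθ with h | h
    · subst h
      rw [hτ]
      constructor
      · nlinarith [hr1.1, hr1.2, hz1.1, hz1.2, hz2.1, hz2.2]
      · nlinarith [hr1.1, hr1.2, hz1.1, hz1.2, hz2.1, hz2.2]
    · subst h
      rw [hτ]
      constructor
      · nlinarith [hr1.1, hr1.2, hz1.1, hz1.2, hz2.1, hz2.2]
      · nlinarith [hr1.1, hr1.2, hz1.1, hz1.2, hz2.1, hz2.2]
  have hT2' : |T 2| ≤ 4.5 * τ := by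
    rw [hT2]
    have := abs_add_le (nu ^ 2 * b 2) (T 3)
    rw [hτ] at *
    nlinarith
  have hT1' : |T 1| ≤ 6 * τ := by
    rw [hT1]
    have := abs_add_le (nu * b 1) (T 2)
    rw [hτ] at *
    nlinarith
  have hτ0 : 0 ≤ τ := by rw [hτ]; linarith
  have hclaim : ∀ m : ℕ, 1 ≤ m → |T (m + 1)| ≤ nu ^ (2 * m) * (8 * m + 4) * τ + 5 * nu ^ m * δ := by
    intro m hm
    induction m, hm using Nat.le_induction with
    | base =>
      simp only [mul_one, pow_one, Nat.cast_one]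
      rw [hnusq]
      have : 0 ≤ 5 * nu * δ := by positivity
      have h6 : |T (1 + 1)| = |T 2| := rfl
      rw [h6]
      linarith
    | succ m hm ih =>
      have h7 := hrec m hm
      have h8 : |θ * nu ^ (2 * m) * T 1| ≤ nu ^ (2 * m) * (6 * τ) := by
        rw [abs_mul, abs_mul, abs_of_pos (pow_pos hnu0 (2 * m))]
        calc |θ| * nu ^ (2 * m) * |T 1| ≤ 1 * nu ^ (2 * m) * (6 * τ) := by
              gcongr
          _ = nu ^ (2 * m) * (6 * τ) := by ring
      have hp : 0 < nu ^ (2 * m) := pow_pos hnu0 _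
      have hpm : 0 < nu ^ m := pow_pos hnu0 _
      have h9 : |T (m + 2)| ≤ 1 / 2 * |T (m + 1)| + 1 / 2 * (nu ^ (2 * m) * (6 * τ)) +
          1 / 2 * (2 * nu ^ m * δ + nu ^ (2 * m) * ℓ) := by
        have h10 : T (m + 2) = 1 / 2 * T (m + 1) - 1 / 2 * (θ * nu ^ (2 * m) * T 1) -
            1 / 2 * (T (m + 1) - 2 * T (m + 2) - θ * nu ^ (2 * m) * T 1) := by ring
        rw [abs_le] at h7 h8
        have h11 := neg_abs_le (T (m + 1))
        have h12 := le_abs_self (T (m + 1))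
        rw [abs_le]
        constructor
        · linarith [h7.1, h7.2, h8.1, h8.2]
        · linarith [h7.1, h7.2, h8.1, h8.2]
      have hℓτ : nu ^ (2 * m) * ℓ ≤ nu ^ (2 * m) * τ := by
        refine mul_le_mul_of_nonneg_left ?_ hp.le
        rw [hτ]; linarith
      have e13 : nu ^ (2 * (m + 1)) = nu ^ (2 * m) * (1 / 2) := by
        rw [mul_add, pow_add, mul_one, hnusq]
      have e14 : nu ^ (m + 1) = nu ^ m * nu := pow_succ _ _
      rw [e13, e14]
      have h15 : nu ^ m * δ * (7 / 2) ≤ 5 * (nu ^ m * nu) * δ := by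
        have : 0 ≤ nu ^ m * δ := by positivity
        nlinarith
      push_cast
      have e16 : m + 1 + 1 = m + 2 := rfl
      rw [e16]
      nlinarith [h9, ih, hℓτ, h15, mul_nonneg hp.le hτ0]
  obtain ⟨m, rfl⟩ : ∃ m, n = m + 1 := ⟨n - 1, by omega⟩
  have hm : 1 ≤ m := by omega
  have h20 := hclaim m hm
  have h21 := hclaim (m + 1) (by omega)
  have h22 : nu ^ (m + 1) * b (m + 1) = T (m + 1) - T (m + 1 + 1) := by
    rw [hTs (m + 1)]; ring
  have hp : 0 < nu ^ (m + 1) := pow_pos hnu0 _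
  have h23 : nu ^ (m + 1) * |b (m + 1)| ≤ nu ^ (m + 1) *
      (24 * ((m + 1 : ℕ) : ℝ) * nu ^ (m + 1) * τ + 13 * δ) := by
    have h24 : nu ^ (m + 1) * |b (m + 1)| = |T (m + 1) - T (m + 1 + 1)| := by
      rw [← h22, abs_mul, abs_of_pos hp]
    rw [h24]
    have h25 := abs_sub (T (m + 1)) (T (m + 1 + 1))
    have e1 : nu ^ (2 * m) = 2 * (nu ^ (m + 1) * nu ^ (m + 1)) := by
      have : nu ^ (m + 1) * nu ^ (m + 1) = nu ^ (2 * m) * nu ^ 2 := by ring
      rw [this, hnusq]; ring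
    have e2 : nu ^ (2 * (m + 1)) = nu ^ (m + 1) * nu ^ (m + 1) := by ring
    have e3 : nu ^ m ≤ nu ^ (m + 1) * 1.4143 := by
      rw [pow_succ]
      have : 0 < nu ^ m := pow_pos hnu0 _
      nlinarith
    rw [e1] at h20
    rw [e2] at h21
    have h26 : 5 * nu ^ m * δ ≤ 5 * (nu ^ (m + 1) * 1.4143) * δ := by gcongr
    push_cast at h21 ⊢
    have h27 : 0 ≤ nu ^ (m + 1) * nu ^ (m + 1) * τ := by positivity
    have h28 : 0 ≤ nu ^ (m + 1) * δ := by positivity
    nlinarith [h20, h21, h25, h26, h27, h28]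
  exact le_of_mul_le_mul_left h23 hp

end Pool.Agent.P187o
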