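import Mathlib
import Pool.Agent.Lib.P187o.Decay

/-!
# Summation of the tails
-/

set_option autoImplicit false

namespace Pool.Agent.P187o

/-- Summing the tails of a series. -/
lemma hasSum_tails {z : ℕ → ℝ} (h : Summable fun n : ℕ => ((n : ℝ) + 1) * |z n|) :
    HasSum (fun m : ℕ => ∑' n : ℕ, z (n + m)) (∑' n : ℕ, ((n : ℝ) + 1) * z n) := by
  -- summability on pairs
  have hcard : ∀ (w : ℕ → ℝ) (n : ℕ),
      ∑' x : Finset.HasAntidiagonal.antidiagonal n, w ((x : ℕ × ℕ).1 + (x : ℕ × ℕ).2) =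
        ((n : ℝ) + 1) * w n := by
    intro w n
    rw [tsum_fintype]
    have : ∀ x : Finset.HasAntidiagonal.antidiagonal n,
        w ((x : ℕ × ℕ).1 + (x : ℕ × ℕ).2) = w n := by
      intro x
      rw [Finset.HasAntidiagonal.mem_antidiagonal.1 x.2]
    simp only [this, Finset.sum_const, Finset.card_univ, Fintype.card_coe,
      Finset.Nat.card_antidiagonal, nsmul_eq_mul]
    push_cast
    ring
  have h1 : Summable fun x : (Σ n : ℕ, Finset.HasAntidiagonal.antidiagonal n) =>
      |z ((x.2 : ℕ × ℕ).1 + (x.2 : ℕ × ℕ).2)| := by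
    rw [summable_sigma_of_nonneg (fun x => abs_nonneg _)]
    refine ⟨fun n => Summable.of_finite, ?_⟩
    refine h.congr (fun n => ?_)
    exact (hcard (fun k => |z k|) n).symm
  have h2 : Summable fun x : (Σ n : ℕ, Finset.HasAntidiagonal.antidiagonal n) =>
      z ((x.2 : ℕ × ℕ).1 + (x.2 : ℕ × ℕ).2) := h1.of_abs
  have h3 : Summable fun p : ℕ × ℕ => z (p.1 + p.2) := by
    rw [← Finset.HasAntidiagonal.sigmaAntidiagonalEquivProd.summable_iff]
    exact h2
  have h4 : ∑' p : ℕ × ℕ, z (p.1 + p.2) = ∑' n : ℕ, ((n : ℝ) + 1) * z n := by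
    rw [← Finset.HasAntidiagonal.sigmaAntidiagonalEquivProd.tsum_eq]
    have h5 := h2.tsum_sigma' (fun n => Summable.of_finite)
    refine Eq.trans ?_ (h5.trans (tsum_congr (fun n => hcard z n)))
    rfl
  rw [← h4]
  refine h3.hasSum.prod_fiberwise (fun m => ?_)
  have := (h3.prod_factor m).hasSum
  simp only [add_comm m] at this
  simpa only [add_comm m] using this

end Pool.Agent.P187o
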