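import Mathlib
import Pool.Agent.Lib.P187o.StepA
import Pool.Agent.Lib.P187o.Tails

/-!
# A linear functional controlled by the pairings
-/

set_option autoImplicit false

namespace Pool.Agent.P187o

lemma pair_tail {b : ℕ → ℝ} (hb : Summable fun n => b n ^ 2) (m : ℕ) (hm : 1 ≤ m) :
    nu ^ m * (∑' n, b n * q (n + m) + ∑' n, b (n + m) * q n) =
      nu ^ (m + 1) * b (m + 1) - (∑' n, nu ^ (n + (m + 2)) * b (n + (m + 2))) +
        nu ^ m * q m * b 0 - nu ^ (2 * m) * ∑' n, nu ^ (n + 1) * b (n + 1) := by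
  have hb1 : Summable fun n => b (n + m) * q n := by
    have hb2 : Summable fun n => b (n + m) ^ 2 :=
      (summable_nat_add_iff (f := fun n => b n ^ 2) m).2 hb
    refine Summable.of_norm_bounded
      (g := fun n => (1 / 2 : ℝ) * (q n * q n) + (1 / 2) * b (n + m) ^ 2)
      ((hasSum_q_sq.summable.mul_left _).add (hb2.mul_left _)) (fun n => ?_)
    rw [Real.norm_eq_abs, abs_le]
    constructor
    · nlinarith [sq_nonneg (q n + b (n + m))]
    · nlinarith [sq_nonneg (q n - b (n + m))]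
  have hb3 : Summable fun n => b n * q (n + m) := by
    have hq2 : Summable fun n => q (n + m) * q (n + m) :=
      (summable_nat_add_iff (f := fun n => q n * q n) m).2 hasSum_q_sq.summable
    refine Summable.of_norm_bounded
      (g := fun n => (1 / 2 : ℝ) * (q (n + m) * q (n + m)) + (1 / 2) * b n ^ 2)
      ((hq2.mul_left _).add (hb.mul_left _)) (fun n => ?_)
    rw [Real.norm_eq_abs, abs_le]
    constructor
    · nlinarith [sq_nonneg (q (n + m) + b n)]
    · nlinarith [sq_nonneg (q (n + m) - b n)]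
  have e2 : nu ^ m * ∑' n, b (n + m) * q n =
      nu ^ (m + 1) * b (m + 1) - ∑' n, nu ^ (n + (m + 2)) * b (n + (m + 2)) := by
    rw [← hb1.sum_add_tsum_nat_add 2, Finset.sum_range_succ, Finset.sum_range_one, q_zero, q_one,
      mul_zero, zero_add, mul_add, ← tsum_mul_left]
    have e3 : ∑' n, nu ^ m * (b (n + 2 + m) * q (n + 2)) =
        -∑' n, nu ^ (n + (m + 2)) * b (n + (m + 2)) := by
      rw [← tsum_neg]
      refine tsum_congr (fun n => ?_)
      rw [q_add_two, show n + 2 + m = n + (m + 2) by ring]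
      ring
    rw [e3, add_comm 1 m]
    ring
  have e4 : nu ^ m * ∑' n, b n * q (n + m) =
      nu ^ m * b 0 * q m - nu ^ (2 * m) * ∑' n, nu ^ (n + 1) * b (n + 1) := by
    obtain ⟨k, rfl⟩ : ∃ k, m = k + 1 := ⟨m - 1, by omega⟩
    rw [hb3.tsum_eq_zero_add, zero_add, mul_add, ← tsum_mul_left, ← tsum_mul_left]
    have e5 : ∑' n, nu ^ (k + 1) * (b (n + 1) * q (n + 1 + (k + 1))) =
        -∑' n, nu ^ (2 * (k + 1)) * (nu ^ (n + 1) * b (n + 1)) := by
      rw [← tsum_neg]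
      refine tsum_congr (fun n => ?_)
      rw [show n + 1 + (k + 1) = (n + k) + 2 by ring, q_add_two]
      ring
    rw [e5]
    ring
  rw [mul_add, e2, e4]
  ring

lemma hasSum_nu_q : HasSum (fun k : ℕ => nu ^ (k + 1) * q (k + 1)) 0 := by
  have h1 : HasSum (fun k : ℕ => nu ^ (k + 2) * q (k + 2)) (2 * -nu ^ 4) := by
    refine (hasSum_nu_sq (-nu ^ 4)).congr_fun (fun n => ?_)
    rw [q_add_two]
    ring
  have h2 := (hasSum_nat_add_iff (f := fun k : ℕ => nu ^ (k + 1) * q (k + 1)) 1).1 h1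
  have h3 : 2 * -nu ^ 4 + ∑ i ∈ Finset.range 1, nu ^ (i + 1) * q (i + 1) = 0 := by
    rw [Finset.sum_range_one, zero_add, q_one]
    have h4 : nu ^ 4 = 1 / 4 := by
      rw [show (4 : ℕ) = 2 * 2 from rfl, pow_mul, nu_sq]; norm_num
    have h5 : nu ^ 1 * nu = 1 / 2 := by rw [← pow_succ, nu_sq]
    rw [h4, h5]
    norm_num
  rw [h3] at h2
  exact h2

lemma hasSum_nu_pow_one : HasSum (fun k : ℕ => nu ^ (k + 1)) (nu * (1 - nu)⁻¹) := by
  refine ((hasSum_geometric_of_lt_one nu_pos.le nu_lt_one).mul_left nu).congr_fun (fun n => ?_)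
  rw [pow_succ]
  ring

lemma summ_wz {b : ℕ → ℝ} (hb : Summable fun n => b n ^ 2) :
    Summable fun n : ℕ => ((n : ℝ) + 1) * |nu ^ n * b n| := by
  have h1 : Summable fun n : ℕ => (nu ^ n) ^ 2 * ((n : ℝ) + 1) ^ 2 := by
    refine (hasSum_w_two.summable.mul_left 2).congr (fun n => ?_)
    rw [pow_succ nu n, mul_pow, nu_sq]
    ring
  refine Summable.of_norm_bounded
    (g := fun n : ℕ => (1 / 2 : ℝ) * ((nu ^ n) ^ 2 * ((n : ℝ) + 1) ^ 2) + (1 / 2) * b n ^ 2)
    ((h1.mul_left _).add (hb.mul_left _)) (fun n => ?_)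
  rw [Real.norm_eq_abs, abs_mul, abs_abs, abs_mul, abs_of_pos (pow_pos nu_pos n),
    abs_of_nonneg (by positivity : (0 : ℝ) ≤ (n : ℝ) + 1)]
  have h5 := sq_nonneg (nu ^ n * ((n : ℝ) + 1) - |b n|)
  have h6 : |b n| ^ 2 = b n ^ 2 := sq_abs _
  nlinarith

theorem ksum {b : ℕ → ℝ} (hb : Summable fun n => b n ^ 2) {δ : ℝ} (hδ : 0 ≤ δ)
    (hrel : ∀ m : ℕ, 1 ≤ m →
      |∑' n, b n * q (n + m) + ∑' n, b (n + m) * q n| ≤ 2 * δ) :
    nu * b 1 + ∑' n : ℕ, ((n : ℝ) + 1) * (nu ^ (n + 3) * b (n + 3)) ≤ 4.84 * δ := by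
  have hz := summable_nu_mul hb
  have hs := fun k => (summable_nat_add_iff (f := fun n => nu ^ n * b n) k).2 hz
  have h1 : HasSum (fun k : ℕ => nu ^ (k + 1 + 1) * b (k + 1 + 1))
      (∑' n, nu ^ (n + 2) * b (n + 2)) := (hs 2).hasSum
  have h2 : HasSum (fun m : ℕ => ∑' n, nu ^ (n + (m + 1 + 2)) * b (n + (m + 1 + 2)))
      (∑' n : ℕ, ((n : ℝ) + 1) * (nu ^ (n + 3) * b (n + 3))) := by
    have hz3 : Summable fun n : ℕ => ((n : ℝ) + 1) * |nu ^ (n + 3) * b (n + 3)| := by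
      refine Summable.of_nonneg_of_le (fun n => by positivity) (fun n => ?_)
        ((summable_nat_add_iff 3).2 (summ_wz hb))
      push_cast
      exact mul_le_mul_of_nonneg_right (by linarith) (abs_nonneg _)
    have := hasSum_tails (z := fun n => nu ^ (n + 3) * b (n + 3)) hz3
    refine this.congr_fun (fun m => ?_)
    refine tsum_congr (fun n => ?_)
    rw [show n + (m + 1 + 2) = n + m + 3 by ring]
  have h3 : HasSum (fun k : ℕ => nu ^ (k + 1) * q (k + 1) * b 0) (0 * b 0) :=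
    hasSum_nu_q.mul_right _
  have h4 : HasSum (fun k : ℕ => nu ^ (2 * (k + 1)) * ∑' n, nu ^ (n + 1) * b (n + 1))
      (1 * ∑' n, nu ^ (n + 1) * b (n + 1)) := by
    refine HasSum.mul_right _ ?_
    have := (hasSum_nu_sq (1 / 2))
    norm_num at this
    refine this.congr_fun (fun k => ?_)
    rw [pow_mul, nu_sq, ← pow_mul, mul_comm k 2, pow_mul, nu_sq, pow_succ]
    ring
  have h5 := ((h1.sub h2).add h3).sub h4
  have h6 : HasSum (fun k : ℕ => nu ^ (k + 1) * (∑' n, b n * q (n + (k + 1)) +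
      ∑' n, b (n + (k + 1)) * q n)) (∑' n, nu ^ (n + 2) * b (n + 2) -
      ∑' n : ℕ, ((n : ℝ) + 1) * (nu ^ (n + 3) * b (n + 3)) + 0 * b 0 -
      1 * ∑' n, nu ^ (n + 1) * b (n + 1)) := by
    refine h5.congr_fun (fun k => ?_)
    exact pair_tail hb (k + 1) (by omega)
  have h7 : HasSum (fun k : ℕ => -(nu ^ (k + 1) * (2 * δ))) (-(nu * (1 - nu)⁻¹ * (2 * δ))) :=
    (hasSum_nu_pow_one.mul_right (2 * δ)).neg
  have h8 := hasSum_le (fun k => ?_) h7 h6
  · have h9 : ∑' n, nu ^ (n + 1) * b (n + 1) = nu * b 1 + ∑' n, nu ^ (n + 2) * b (n + 2) := by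
      rw [(hs 1).tsum_eq_zero_add]
      simp
    have h10 : nu * (1 - nu)⁻¹ ≤ 2.42 := by
      have := nu_lt
      rw [← div_eq_mul_inv, div_le_iff₀ (by linarith)]
      linarith
    have h11 : nu * (1 - nu)⁻¹ * (2 * δ) ≤ 2.42 * (2 * δ) :=
      mul_le_mul_of_nonneg_right h10 (by linarith)
    rw [h9] at h8
    linarith
  · have h9 := hrel (k + 1) (by omega)
    have h10 := (abs_le.1 h9).1
    have h11 := mul_le_mul_of_nonneg_left h10 (pow_pos nu_pos (k + 1)).le
    linarith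

end Pool.Agent.P187o
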