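import Mathlib
import Pool.Agent.Lib.P187o.Defs

/-!
# Normalisation of the phases of the first two coefficients
-/

set_option autoImplicit false

open scoped ComplexConjugate

namespace Pool.Agent.P187o

lemma exists_phase (z : ℂ) : ∃ e : ℂ, ‖e‖ = 1 ∧ e * z = (‖z‖ : ℂ) := by
  rcases eq_or_ne z 0 with h | h
  · exact ⟨1, by simp, by simp [h]⟩
  · have h1 : ‖z‖ ≠ 0 := norm_ne_zero_iff.2 h
    refine ⟨conj z / (‖z‖ : ℂ), ?_, ?_⟩
    · rw [norm_div, RCLike.norm_conj, Complex.norm_real, norm_norm, div_self h1]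
    · have h3 : (‖z‖ : ℂ) ≠ 0 := by exact_mod_cast h1
      rw [div_mul_eq_mul_div, mul_comm (conj z) z, Complex.mul_conj, Complex.normSq_eq_norm_sq,
        div_eq_iff h3]
      push_cast
      ring

lemma Ball.rotate {a : ℕ → ℂ} (h : Ball a) {κ ξ : ℂ} (hκ : ‖κ‖ = 1) (hξ : ‖ξ‖ = 1) :
    Ball (fun n => κ * ξ ^ n * a n) := by
  refine ⟨h.summ.congr (fun n => ?_), ?_⟩
  · rw [norm_mul, norm_mul, norm_pow, hκ, hξ, one_pow, one_mul, one_mul]
  · intro m hm η hη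
    have hη' : ‖η * conj ξ ^ m‖ = 1 := by
      rw [norm_mul, norm_pow, RCLike.norm_conj, hη, hξ, one_pow, one_mul]
    have hξξ : ξ * conj ξ = 1 := by
      rw [Complex.mul_conj, Complex.normSq_eq_norm_sq, hξ]; norm_num
    refine le_trans (le_of_eq (tsum_congr fun n => ?_)) (h.le2 m hm _ hη')
    have e : κ * ξ ^ n * a n + η * sh m (fun n => κ * ξ ^ n * a n) n =
        κ * ξ ^ n * (a n + η * conj ξ ^ m * sh m a n) := by
      unfold sh
      split_ifs with hmn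
      · have h2 : ξ ^ n * conj ξ ^ m = ξ ^ (n - m) := by
          obtain ⟨k, rfl⟩ : ∃ k, n = k + m := ⟨n - m, by omega⟩
          rw [Nat.add_sub_cancel, pow_add, mul_assoc, ← mul_pow, hξξ, one_pow, mul_one]
        simp only
        rw [← h2]
        ring
      · ring
    rw [e, norm_mul, norm_mul, norm_pow, hκ, hξ, one_pow, one_mul, one_mul]

theorem Ball.exists_normal {a : ℕ → ℂ} (h : Ball a) : ∃ a' : ℕ → ℂ, Ball a' ∧
    (∀ n, ‖a' n‖ = ‖a n‖) ∧ a' 1 = (‖a 1‖ : ℂ) ∧ a' 2 = -(‖a 2‖ : ℂ) := by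
  obtain ⟨e1, h1, h1'⟩ := exists_phase (a 1)
  obtain ⟨e2, h2, h2'⟩ := exists_phase (a 2)
  -- `κ ξ = e1`, `κ ξ ^ 2 = - e2`
  have hc : e1 * conj e1 = 1 := by
    rw [Complex.mul_conj, Complex.normSq_eq_norm_sq, h1]; norm_num
  have hc2 : e2 * conj e2 = 1 := by
    rw [Complex.mul_conj, Complex.normSq_eq_norm_sq, h2]; norm_num
  set ξ : ℂ := -(e2 * conj e1) with hξdef
  set κ : ℂ := -(e1 * e1 * conj e2) with hκdef
  have hξ : ‖ξ‖ = 1 := by
    rw [hξdef, norm_neg, norm_mul, RCLike.norm_conj, h1, h2, one_mul]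
  have hκ : ‖κ‖ = 1 := by
    rw [hκdef, norm_neg, norm_mul, norm_mul, RCLike.norm_conj, h1, h2, one_mul, one_mul]
  refine ⟨fun n => κ * ξ ^ n * a n, h.rotate hκ hξ, ?_, ?_, ?_⟩
  · intro n
    rw [norm_mul, norm_mul, norm_pow, hκ, hξ, one_pow, one_mul, one_mul]
  · have e : κ * ξ ^ 1 = e1 := by
      rw [hκdef, hξdef]
      linear_combination e1 * (e1 * conj e1) * hc2 + e1 * hc
    simp only [e, h1']
  · have e : κ * ξ ^ 2 = -e2 := by
      rw [hκdef, hξdef]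
      linear_combination (-e2 * (e1 * conj e1) ^ 2) * hc2 - e2 * (e1 * conj e1 + 1) * hc
    simp only [e]
    rw [neg_mul, h2']

end Pool.Agent.P187o
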