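import Mathlib
import Pool.Agent.Lib.P187o.StepA

/-!
# A rough bound for the distance to the extremal sequence
-/

set_option autoImplicit false

open scoped ComplexConjugate

namespace Pool.Agent.P187o

/-- The defect `1 - ∑ Re (a n) q n`. -/
noncomputable def dl (a : ℕ → ℂ) : ℝ := 1 - ∑' n, (a n).re * q n

lemma norm_sub_sq_expand (u v : ℂ) :
    ‖u - nu * v‖ ^ 2 = ‖u‖ ^ 2 + nu ^ 2 * ‖v‖ ^ 2 - 2 * nu * (v * conj u).re := by
  rw [← Complex.normSq_eq_norm_sq, ← Complex.normSq_eq_norm_sq, ← Complex.normSq_eq_norm_sq,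
    Complex.normSq_apply, Complex.normSq_apply, Complex.normSq_apply]
  simp
  ring

lemma hasSum_nu_pow_two : HasSum (fun n : ℕ => nu ^ (n + 2)) (nu ^ 2 * (1 - nu)⁻¹) := by
  refine ((hasSum_geometric_of_lt_one nu_pos.le nu_lt_one).mul_left (nu ^ 2)).congr_fun
    (fun n => ?_)
  rw [pow_add]
  ring

namespace Big

variable {a : ℕ → ℂ} {l σ : ℝ}

lemma A1_eq (a : ℕ → ℂ) : ‖a 1‖ = nu + xx a 0 := by
  simp [xx]

lemma A2_eq (a : ℕ → ℂ) : ‖a 2‖ = 1 / 2 + xx a 1 := by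
  simp [xx, nu_sq]

lemma A1_le (h : Big a l σ) : ‖a 1‖ ≤ 1 := by
  have h1 : ‖a 1‖ ^ 2 ≤ 1 := (h.ball.summ.le_tsum 1 (fun _ _ => sq_nonneg _)).trans
    h.ball.norm_le
  have h2 := norm_nonneg (a 1)
  nlinarith

lemma S_le (h : Big a l σ) :
    Summable (fun n => ‖a (n + 3) - nu * a (n + 2)‖ ^ 2) ∧
      ∑' n, ‖a (n + 3) - nu * a (n + 2)‖ ^ 2 ≤ 31 * l := by
  have hs := h.ball.summ
  have hs3 := (summable_nat_add_iff (f := fun n => ‖a n‖ ^ 2) 3).2 hs
  have hs2 := (summable_nat_add_iff (f := fun n => ‖a n‖ ^ 2) 2).2 hs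
  have hc0 : Summable fun n => a n * conj (a (n + 1)) :=
    summable_mul_conj hs ((summable_nat_add_iff (f := fun n => ‖a n‖ ^ 2) 1).2 hs)
  have hc2 : Summable fun n => a (n + 2) * conj (a (n + 3)) :=
    (summable_nat_add_iff (f := fun n => a n * conj (a (n + 1))) 2).2 hc0
  have hcr := Complex.hasSum_re hc2.hasSum
  have hS : HasSum (fun n => ‖a (n + 3) - nu * a (n + 2)‖ ^ 2)
      (∑' n, ‖a (n + 3)‖ ^ 2 + nu ^ 2 * ∑' n, ‖a (n + 2)‖ ^ 2 -
        2 * nu * (∑' n, a (n + 2) * conj (a (n + 3))).re) := by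
    refine ((hs3.hasSum.add (hs2.hasSum.mul_left (nu ^ 2))).sub
      (hcr.mul_left (2 * nu))).congr_fun (fun n => ?_)
    exact norm_sub_sq_expand _ _
  refine ⟨hS.summable, ?_⟩
  rw [hS.tsum_eq]
  -- evaluate
  have e2 := hs.sum_add_tsum_nat_add 2
  have e3 := hs.sum_add_tsum_nat_add 3
  simp only [Finset.sum_range_succ, Finset.sum_range_zero, zero_add, h.a0] at e2 e3
  have ec := hc0.sum_add_tsum_nat_add 2
  simp only [Finset.sum_range_succ, Finset.sum_range_zero, zero_add] at ec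
  have hn := h.ball.abs_corr (m := 1) le_rfl
  have hd := h.defect_le
  have hre := Complex.abs_re_le_norm (∑' n, a n * conj (a (n + 1)))
  rw [← ec] at hn hre
  have e12 : (a 1 * conj (a (1 + 1))).re = -(‖a 1‖ * ‖a 2‖) := by
    rw [show (1 + 1 : ℕ) = 2 from rfl, h.a1, h.a2, map_neg, Complex.conj_ofReal, mul_neg,
      ← Complex.ofReal_mul, Complex.neg_re, Complex.ofReal_re, Complex.norm_real, norm_norm,
      norm_neg, Complex.norm_real, norm_norm]
  have e01 : (a 0 * conj (a 1)).re ≤ l * ‖a 1‖ := by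
    refine (Complex.re_le_norm _).trans ?_
    rw [norm_mul, RCLike.norm_conj, h.a0]
  rw [Complex.add_re, Complex.add_re, e12] at hre
  have hA1 := h.A1_le
  have hx0 := h.abs_xx_le 0
  have hx1 := h.abs_xx_le 1
  have hP := h.ball.norm_le
  have hl := h.l_pos
  have hls := h.l_small
  have hnu0 := nu_pos
  have hnu := nu_lt
  have hnu' := lt_nu
  have hsq := nu_sq
  set R := (∑' i, a (i + 2) * conj (a (i + 2 + 1))).re with hR
  have hRlow : ‖a 1‖ * ‖a 2‖ - l - 32 * σ ^ 2 ≤ R := by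
    have h5' := le_abs_self ((a 0 * conj (a 1)).re + -(‖a 1‖ * ‖a 2‖) + R)
    have h5'' := neg_abs_le ((a 0 * conj (a 1)).re + -(‖a 1‖ * ‖a 2‖) + R)
    have h6 : (a 0 * conj (a 1)).re ≤ l * 1 :=
      e01.trans (mul_le_mul_of_nonneg_left hA1 hl.le)
    linarith
  have hσl : σ ^ 2 ≤ l ^ 2 := pow_le_pow_left₀ h.sigma_pos.le h.s2 2
  have hll : l ^ 2 ≤ l * (1 / 10 ^ 24) := by
    rw [sq]; exact mul_le_mul_of_nonneg_left hls hl.le
  rw [A1_eq, A2_eq] at hRlow
  rw [A1_eq] at e2 e3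
  rw [A2_eq] at e3
  rw [hsq]
  have hRlow2 : 2 * nu * ((nu + xx a 0) * (1 / 2 + xx a 1) - l - 32 * σ ^ 2) ≤ 2 * nu * R :=
    mul_le_mul_of_nonneg_left hRlow (by linarith)
  rw [abs_le] at hx0 hx1
  set x := xx a 0
  set y := xx a 1
  have hquad : 0 ≤ 3 / 2 * x ^ 2 + y ^ 2 + 2 * nu * (x * y) := by
    nlinarith [sq_nonneg (y + nu * x), sq_nonneg x]
  have h8 : 2 * nu * ((nu + x) * (1 / 2 + y)) = 1 / 2 + y + nu * x + 2 * nu * (x * y) := by
    linear_combination (1 + 2 * y) * hsq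
  have h9 : 2 * nu * l ≤ 1.4144 * l := by
    have := mul_le_mul_of_nonneg_right hnu.le hl.le
    linarith
  have h10 : 2 * nu * (32 * σ ^ 2) ≤ 46 * σ ^ 2 := by
    have := mul_le_mul_of_nonneg_right hnu.le (sq_nonneg σ)
    linarith
  have h11 : -(nu * x) ≤ 0.7072 * (6 * l) := by
    have : -(nu * x) = nu * (-x) := by ring
    rw [this]
    calc nu * (-x) ≤ nu * (6 * l) := mul_le_mul_of_nonneg_left (by linarith) hnu0.le
      _ ≤ 0.7072 * (6 * l) := mul_le_mul_of_nonneg_right (by linarith) (by linarith)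
  have h12 : (nu + x) ^ 2 = 1 / 2 + 2 * (nu * x) + x ^ 2 := by
    linear_combination hsq
  rw [h12] at e2 e3
  norm_num at hll
  linarith [sq_nonneg l]

lemma rough (h : Big a l σ) (n : ℕ) : ‖a (n + 2) + (nu : ℂ) ^ (n + 2)‖ ≤ 20 * √l := by
  have hl := h.l_pos
  have hls := h.l_small
  have ht := Real.sq_sqrt hl.le
  have ht0 : 0 < √l := Real.sqrt_pos.2 hl
  have ht1 : √l ≤ 1 := by
    rw [Real.sqrt_le_one]
    exact hls.trans (by norm_num)
  have hlt : l ≤ √l := by nlinarith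
  obtain ⟨hS, hS2⟩ := h.S_le
  induction n with
  | zero =>
    have h1 := h.abs_xx_le 1
    have h2 : a (0 + 2) + (nu : ℂ) ^ (0 + 2) = ((-(xx a 1) : ℝ) : ℂ) := by
      rw [zero_add, h.a2, Big.A2_eq, ← Complex.ofReal_pow, nu_sq]
      push_cast
      ring
    rw [h2, Complex.norm_real, Real.norm_eq_abs, abs_neg]
    linarith
  | succ n ih =>
    have h3 : ‖a (n + 3) - nu * a (n + 2)‖ ≤ 5.6 * √l := by
      have h4 : ‖a (n + 3) - nu * a (n + 2)‖ ^ 2 ≤ 31 * l :=
        (hS.le_tsum n (fun _ _ => sq_nonneg _)).trans hS2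
      refine le_of_sq_le_sq (h4.trans ?_) (by positivity)
      nlinarith
    have h5 : a (n + 1 + 2) + (nu : ℂ) ^ (n + 1 + 2) =
        (a (n + 3) - nu * a (n + 2)) + nu * (a (n + 2) + (nu : ℂ) ^ (n + 2)) := by
      rw [show n + 1 + 2 = n + 3 by ring, pow_succ]
      ring
    rw [h5]
    refine (norm_add_le _ _).trans ?_
    rw [norm_mul, Complex.norm_real, Real.norm_eq_abs, abs_of_pos nu_pos]
    have h6 : nu * ‖a (n + 2) + (nu : ℂ) ^ (n + 2)‖ ≤ 0.7072 * (20 * √l) :=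
      mul_le_mul (by have := nu_lt; linarith) ih (norm_nonneg _) (by norm_num)
    linarith

lemma summ_re_q (h : Big a l σ) : Summable fun n => (a n).re * q n := by
  have := (h.ball.re_tsum_q 0 0).summable
  simpa using this

lemma dl_eq (h : Big a l σ) :
    HasSum (fun n => nu ^ (n + 2) * (nu ^ (n + 2) + (a (n + 2)).re)) (dl a + nu * xx a 0) := by
  have h1 := (hasSum_q_sq.sub h.summ_re_q.hasSum)
  have h2 := (hasSum_nat_add_iff' (f := fun n => q n * q n - (a n).re * q n) 2).2 h1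
  rw [Finset.sum_range_succ, Finset.sum_range_one, q_zero, q_one] at h2
  have h3 : (a 1).re = nu + xx a 0 := by
    rw [h.a1, Complex.ofReal_re, A1_eq]
  have h4 : 1 - ∑' n, (a n).re * q n - (0 * 0 - (a 0).re * 0 + (nu * nu - (a 1).re * nu)) =
      dl a + nu * xx a 0 := by
    rw [h3, dl]
    ring
  rw [h4] at h2
  refine h2.congr_fun (fun n => ?_)
  rw [q_add_two]
  ring

lemma dl_nonneg (h : Big a l σ) : 0 ≤ dl a := h.ball.delta_nonneg

lemma dl_rough (h : Big a l σ) : dl a ≤ 40 * √l := by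
  have hl := h.l_pos
  have hls := h.l_small
  have ht := Real.sq_sqrt hl.le
  have ht0 : 0 < √l := Real.sqrt_pos.2 hl
  have ht1 : √l ≤ 1 := by
    rw [Real.sqrt_le_one]
    exact hls.trans (by norm_num)
  have hlt : l ≤ √l := by nlinarith
  have hnu := nu_lt
  have hnu' := lt_nu
  have hnu0 := nu_pos
  have h1 := h.dl_eq
  have h2 := hasSum_nu_pow_two.mul_left (20 * √l)
  have h3 := hasSum_le (fun n => ?_) h1 h2
  · have h4 : nu ^ 2 * (1 - nu)⁻¹ ≤ 1.708 := by
      rw [nu_sq, ← div_eq_mul_inv, div_le_iff₀ (by linarith)]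
      linarith
    have h5 : 20 * √l * (nu ^ 2 * (1 - nu)⁻¹) ≤ 20 * √l * 1.708 :=
      mul_le_mul_of_nonneg_left h4 (by positivity)
    have h6 := h.abs_xx_le 0
    have h7 : -(nu * xx a 0) ≤ 0.7072 * (6 * l) := by
      have : -(nu * xx a 0) = nu * (-xx a 0) := by ring
      rw [this]
      rw [abs_le] at h6
      calc nu * (-xx a 0) ≤ nu * (6 * l) := mul_le_mul_of_nonneg_left (by linarith) hnu0.le
        _ ≤ 0.7072 * (6 * l) := mul_le_mul_of_nonneg_right (by linarith) (by linarith)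
    linarith
  · have h4 := h.rough n
    have h5 : nu ^ (n + 2) + (a (n + 2)).re ≤ 20 * √l := by
      refine le_trans ?_ h4
      have h6 := Complex.re_le_norm (a (n + 2) + (nu : ℂ) ^ (n + 2))
      rw [Complex.add_re, ← Complex.ofReal_pow, Complex.ofReal_re] at h6
      rw [← Complex.ofReal_pow]
      linarith
    have := mul_le_mul_of_nonneg_left h5 (pow_pos hnu0 (n + 2)).le
    linarith

end Big

end Pool.Agent.P187o
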