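import Mathlib
import Pool.Agent.Lib.P187o.StepB
import Pool.Agent.Lib.P187o.Decay

/-!
# Quadratic closeness to the extremal sequence
-/

set_option autoImplicit false

open scoped ComplexConjugate

namespace Pool.Agent.P187o

lemma pointwise (u : ℂ) {ρ : ℝ} (hρ : 0 < ρ) :
    ρ * (‖u‖ + u.re) ≤ 13 * ((u.re + ρ) ^ 2 + u.im ^ 2) := by
  have h1 : (‖u‖ + u.re) * (‖u‖ - u.re) = u.im ^ 2 := by
    have := Complex.sq_norm u
    rw [Complex.normSq_apply] at this
    linear_combination this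
  have h2 := Complex.abs_re_le_norm u
  have h2' := abs_le.1 h2
  have h3 : 0 ≤ ‖u‖ + u.re := by linarith [h2'.1]
  rcases le_or_gt u.re (-ρ / 2) with h4 | h4
  · have h5 : ρ ≤ ‖u‖ - u.re := by linarith [h2'.1]
    have h6 : (‖u‖ + u.re) * ρ ≤ (‖u‖ + u.re) * (‖u‖ - u.re) :=
      mul_le_mul_of_nonneg_left h5 h3
    nlinarith [sq_nonneg (u.re + ρ), sq_nonneg u.im]
  · have h5 := Complex.norm_le_abs_re_add_abs_im u
    set b := u.re + ρ with hb
    have hb0 : ρ / 2 < b := by rw [hb]; linarith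
    have h6 : |u.re| ≤ b + ρ := by
      rw [abs_le]; constructor <;> linarith
    have h7 : ‖u‖ + u.re ≤ 6 * b + |u.im| := by
      have := le_abs_self u.re
      linarith
    have h8 : ρ * (‖u‖ + u.re) ≤ 2 * b * (6 * b + |u.im|) :=
      mul_le_mul (by linarith) h7 h3 (by linarith)
    have h9 : |u.im| ^ 2 = u.im ^ 2 := sq_abs _
    nlinarith [sq_nonneg (b - |u.im|), sq_nonneg u.im]

namespace Big

variable {a : ℕ → ℂ} {l σ : ℝ}

lemma summ_re_sq (h : Big a l σ) : Summable fun n => (a n).re ^ 2 := by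
  refine Summable.of_nonneg_of_le (fun n => sq_nonneg _) (fun n => ?_) h.ball.summ
  rw [← sq_abs]
  exact pow_le_pow_left₀ (abs_nonneg _) (Complex.abs_re_le_norm _) 2

lemma summ_im_sq (h : Big a l σ) : Summable fun n => (a n).im ^ 2 := by
  refine Summable.of_nonneg_of_le (fun n => sq_nonneg _) (fun n => ?_) h.ball.summ
  rw [← sq_abs]
  exact pow_le_pow_left₀ (abs_nonneg _) (Complex.abs_im_le_norm _) 2

lemma summ_b_sq (h : Big a l σ) : Summable fun n => ((a n).re - q n) ^ 2 := by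
  refine ((h.summ_re_sq.add hasSum_q_sq.summable).sub (h.summ_re_q.mul_left 2)).congr
    (fun n => ?_)
  ring

lemma decay_re (h : Big a l σ) (n : ℕ) :
    |(a (n + 2)).re + nu ^ (n + 2)| ≤
      24 * ((n : ℝ) + 2) * nu ^ (n + 2) * (dl a + 6 * l) + 13 * dl a := by
  have hl := h.l_pos
  have hd := h.dl_nonneg
  have h1 := decay (b := fun n => (a n).re - q n) h.summ_b_sq (θ := 1) (ℓ := 6 * l) (δ := dl a)
    (Or.inl rfl) (by linarith) hd ?_ ?_ ?_ ?_ (n + 2) (by omega)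
  · simp only [q_add_two, sub_neg_eq_add] at h1
    push_cast at h1
    exact h1
  · simp only [q_zero, sub_zero]
    have := Complex.abs_re_le_norm (a 0)
    rw [h.a0] at this
    linarith
  · simp only [q_one]
    have h3 : (a 1).re = nu + xx a 0 := by
      rw [h.a1, Complex.ofReal_re, A1_eq]
    rw [h3, add_sub_cancel_left]
    exact h.abs_xx_le 0
  · have h3 : (a 2).re = -(1 / 2 + xx a 1) := by
      rw [h.a2, Complex.neg_re, Complex.ofReal_re, A2_eq]
    have h4 : q 2 = -(1 / 2) := by rw [show (2 : ℕ) = 0 + 2 from rfl, q_add_two, zero_add, nu_sq]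
    simp only [h3, h4]
    rw [show -(1 / 2 + xx a 1) - -(1 / 2) = -(xx a 1) by ring, abs_neg]
    exact h.abs_xx_le 1
  · intro m hm
    have h2 := h.ball.pair_re hm
    have hc := hasSum_q_corr hm
    have e1 : ∑' n, ((a (n + m)).re - q (n + m)) * q n = ∑' n, (a (n + m)).re * q n := by
      have h5 := (h.ball.re_tsum_q 0 m)
      simp only [add_zero] at h5
      have h6 := h5.sub hc
      rw [sub_zero] at h6
      rw [h5.tsum_eq, ← h6.tsum_eq]
      exact tsum_congr fun n => by ring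
    have e2 : ∑' n, ((a n).re - q n) * q (n + m) = ∑' n, (a n).re * q (n + m) := by
      have h5 := (h.ball.re_tsum_q m 0)
      simp only [add_zero] at h5
      have h6 := h5.sub hc
      rw [sub_zero] at h6
      rw [h5.tsum_eq, ← h6.tsum_eq]
      exact tsum_congr fun n => by ring
    rw [e1, e2, one_mul, add_comm]
    exact h2

lemma decay_im (h : Big a l σ) (n : ℕ) :
    |(a (n + 2)).im| ≤
      24 * ((n : ℝ) + 2) * nu ^ (n + 2) * (dl a + 6 * l) + 13 * dl a := by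
  have hl := h.l_pos
  have hd := h.dl_nonneg
  have h1 := decay (b := fun n => (a n).im) h.summ_im_sq (θ := -1) (ℓ := 6 * l) (δ := dl a)
    (Or.inr rfl) (by linarith) hd ?_ ?_ ?_ ?_ (n + 2) (by omega)
  · push_cast at h1
    exact h1
  · have := Complex.abs_im_le_norm (a 0)
    rw [h.a0] at this
    linarith
  · rw [h.a1, Complex.ofReal_im, abs_zero]
    linarith
  · rw [h.a2, Complex.neg_im, Complex.ofReal_im, neg_zero, abs_zero]
    linarith
  · intro m hm
    have h2 := h.ball.pair_im hm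
    rw [← abs_neg]
    have e : -(∑' n, (a (n + m)).im * q n + -1 * ∑' n, (a n).im * q (n + m)) =
      ∑' n, (a n).im * q (n + m) - ∑' n, (a (n + m)).im * q n := by ring
    rw [e]
    exact h2

/-- The excess of the moduli over the real parts. -/
noncomputable def ex (a : ℕ → ℂ) (n : ℕ) : ℝ := nu ^ (n + 2) * (‖a (n + 2)‖ + (a (n + 2)).re)

lemma hasSum_ex (h : Big a l σ) :
    HasSum (ex a) (dl a + ∑' n, nu ^ (n + 1) * xx a n) := by
  have h1 := h.dl_eq
  have h2 := h.summ_wx.hasSum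
  have h3 := (hasSum_nat_add_iff' (f := fun n => nu ^ (n + 1) * xx a n) 1).2 h2
  rw [Finset.sum_range_one] at h3
  have h4 := h1.add h3
  have e : dl a + nu * xx a 0 + (∑' n, nu ^ (n + 1) * xx a n - nu ^ (0 + 1) * xx a 0) =
      dl a + ∑' n, nu ^ (n + 1) * xx a n := by
    rw [zero_add, pow_one]; ring
  rw [e] at h4
  refine h4.congr_fun (fun n => ?_)
  simp only [ex, xx]
  rw [show n + 1 + 1 = n + 2 from rfl]
  ring

lemma ex_le1 (h : Big a l σ) (n : ℕ) : ex a n ≤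
    29952 * (dl a + 6 * l) ^ 2 * ((nu ^ (n + 2)) ^ 2 * ((n : ℝ) + 2) ^ 2) + 8788 * dl a ^ 2 := by
  have h1 := h.decay_re n
  have h2 := h.decay_im n
  have h3 := pointwise (a (n + 2)) (pow_pos nu_pos (n + 2))
  have hd := h.dl_nonneg
  have hl := h.l_pos
  set E := 24 * ((n : ℝ) + 2) * nu ^ (n + 2) * (dl a + 6 * l) with hE
  have hE0 : 0 ≤ E := by
    have := nu_pos
    positivity
  have h4 : ((a (n + 2)).re + nu ^ (n + 2)) ^ 2 ≤ (E + 13 * dl a) ^ 2 := by
    rw [← sq_abs]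
    exact pow_le_pow_left₀ (abs_nonneg _) h1 2
  have h5 : (a (n + 2)).im ^ 2 ≤ (E + 13 * dl a) ^ 2 := by
    rw [← sq_abs]
    exact pow_le_pow_left₀ (abs_nonneg _) h2 2
  have h6 : (E + 13 * dl a) ^ 2 ≤ 2 * E ^ 2 + 338 * dl a ^ 2 := by
    nlinarith [sq_nonneg (E - 13 * dl a)]
  have h7 : E ^ 2 = 576 * (dl a + 6 * l) ^ 2 * ((nu ^ (n + 2)) ^ 2 * ((n : ℝ) + 2) ^ 2) := by
    rw [hE]; ring
  rw [ex]
  linarith

lemma ex_le2 (h : Big a l σ) (n : ℕ) : ex a n ≤
    2 * (nu ^ (n + 2)) ^ 2 + 12 * l * nu ^ (n + 2) := by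
  have h1 := Complex.re_le_norm (a (n + 2))
  have h2 := h.abs_xx_le (n + 1)
  rw [xx, show n + 1 + 1 = n + 2 from rfl, abs_le] at h2
  have h3 : ‖a (n + 2)‖ + (a (n + 2)).re ≤ 2 * nu ^ (n + 2) + 12 * l := by linarith [h2.2]
  have h4 := mul_le_mul_of_nonneg_left h3 (pow_pos nu_pos (n + 2)).le
  rw [ex]
  linarith

/-- Interpolation between two bounds. -/
lemma interp {T U V W Z p r g k : ℝ} (h1 : T ≤ U + V) (h2 : T ≤ W + Z) (hU : 0 ≤ U)
    (hp : 0 ≤ p) (hr : 0 ≤ r) (hg : 0 ≤ g) (hk : 0 ≤ k) (hVp : V ≤ p ^ 4) (hWr : W ≤ r ^ 4)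
    (hVg : V ≤ g ^ 2) (hZk : Z ≤ k ^ 2) : T ≤ U + p ^ 3 * r + g * k := by
  have hgk : 0 ≤ g * k := mul_nonneg hg hk
  have hpr : 0 ≤ p ^ 3 * r := by positivity
  rcases le_total p r with h | h
  · have : p ^ 4 ≤ p ^ 3 * r := by
      rw [pow_succ]
      exact mul_le_mul_of_nonneg_left h (by positivity)
    linarith
  · rcases le_total g k with h' | h'
    · have : g ^ 2 ≤ g * k := by
        rw [sq]; exact mul_le_mul_of_nonneg_left h' hg
      linarith
    · have h3 : r ^ 4 ≤ p ^ 3 * r := by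
        rw [pow_succ]
        exact mul_le_mul_of_nonneg_right (pow_le_pow_left₀ hr h 3) hr
      have h4 : k ^ 2 ≤ g * k := by
        rw [sq]; exact mul_le_mul_of_nonneg_right h' hk
      linarith

lemma sqrt_nu_lt : √nu < 0.841 := by
  rw [Real.sqrt_lt' (by norm_num)]
  have := nu_lt
  norm_num at *
  linarith

lemma ex_le (h : Big a l σ) (n : ℕ) : ex a n ≤
    29952 * (dl a + 6 * l) ^ 2 * ((nu ^ (n + 2)) ^ 2 * ((n : ℝ) + 2) ^ 2) +
      (1200 * √(dl a) ^ 3 + 350 * dl a * √l) * √nu ^ (n + 2) := by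
  have h1 := h.ex_le1 n
  have h2 := h.ex_le2 n
  have hd := h.dl_nonneg
  have hl := h.l_pos
  have hnu := nu_pos
  have e1 := Real.sq_sqrt hd
  have e2 := Real.sq_sqrt hl.le
  have e3 : √nu ^ (n + 2) * √nu ^ (n + 2) = nu ^ (n + 2) := by
    rw [← mul_pow, Real.mul_self_sqrt hnu.le]
  have h3 := interp h1 h2 (p := 10 * √(dl a)) (r := 1.2 * √nu ^ (n + 2)) (g := 100 * dl a)
    (k := 3.5 * (√l * √nu ^ (n + 2))) (by positivity) (by positivity) (by positivity)
    (by positivity) (by positivity) ?_ ?_ ?_ ?_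
  · refine h3.trans (le_of_eq ?_)
    ring
  · have : (10 * √(dl a)) ^ 4 = 10000 * (√(dl a) ^ 2) ^ 2 := by ring
    rw [this, e1]
    nlinarith [sq_nonneg (dl a)]
  · have : (1.2 * √nu ^ (n + 2)) ^ 4 = 2.0736 * (√nu ^ (n + 2) * √nu ^ (n + 2)) ^ 2 := by ring
    rw [this, e3]
    nlinarith [sq_nonneg (nu ^ (n + 2))]
  · nlinarith [sq_nonneg (dl a)]
  · have : (3.5 * (√l * √nu ^ (n + 2))) ^ 2 =
        12.25 * (√l ^ 2 * (√nu ^ (n + 2) * √nu ^ (n + 2))) := by ring
    rw [this, e3, e2]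
    have : 0 ≤ l * nu ^ (n + 2) := by positivity
    linarith

lemma tsum_ex_le (h : Big a l σ) : dl a + ∑' n, nu ^ (n + 1) * xx a n ≤
    180000 * (dl a + 6 * l) ^ 2 + 5400 * √(dl a) ^ 3 + 1575 * dl a * √l := by
  have hd := h.dl_nonneg
  have hl := h.l_pos
  have hm := sqrt_nu_lt
  have hm0 : 0 < √nu := Real.sqrt_pos.2 nu_pos
  have h1 := (hasSum_nat_add_iff' (f := fun n : ℕ => (nu ^ (n + 1)) ^ 2 * ((n : ℝ) + 1) ^ 2) 1).2
    hasSum_w_two
  have h2 := h1.mul_left (29952 * (dl a + 6 * l) ^ 2)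
  have h3 := ((hasSum_geometric_of_lt_one hm0.le (by linarith)).mul_left (√nu ^ 2)).mul_left
    (1200 * √(dl a) ^ 3 + 350 * dl a * √l)
  have h4 := hasSum_le (fun n => ?_) h.hasSum_ex (h2.add h3)
  · refine h4.trans ?_
    have h5 : √nu ^ 2 * (1 - √nu)⁻¹ ≤ 4.5 := by
      rw [Real.sq_sqrt nu_pos.le, ← div_eq_mul_inv, div_le_iff₀ (by linarith)]
      have := nu_lt
      linarith
    have h6 : (1200 * √(dl a) ^ 3 + 350 * dl a * √l) * (√nu ^ 2 * (1 - √nu)⁻¹) ≤
        (1200 * √(dl a) ^ 3 + 350 * dl a * √l) * 4.5 :=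
      mul_le_mul_of_nonneg_left h5 (by positivity)
    rw [Finset.sum_range_one]
    norm_num at h6 ⊢
    rw [nu_sq]
    nlinarith [sq_nonneg (dl a + 6 * l)]
  · have h5 := h.ex_le n
    refine h5.trans (le_of_eq ?_)
    push_cast
    rw [show n + 1 + 1 = n + 2 from rfl]
    ring

theorem dl_le (h : Big a l σ) : dl a ≤ 30000000 * l ^ 2 := by
  have h1 := h.tsum_ex_le
  have h2 := h.wx_ge
  have h3 := h.dl_rough
  have hd := h.dl_nonneg
  have hl := h.l_pos
  have hls := h.l_small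
  have e1 := Real.sq_sqrt hd
  have e2 := Real.sq_sqrt hl.le
  have ht0 : 0 ≤ √l := Real.sqrt_nonneg l
  have he0 : 0 ≤ √(dl a) := Real.sqrt_nonneg _
  have ht : √l ≤ 1 / 10 ^ 12 := by
    rw [Real.sqrt_le_left (by norm_num)]
    refine hls.trans (by norm_num)
  have hdd : dl a ≤ 4 / 10 ^ 11 := by
    refine h3.trans ?_
    norm_num at ht ⊢
    linarith
  have he : √(dl a) ≤ 7 / 10 ^ 6 := by
    rw [Real.sqrt_le_left (by norm_num)]
    refine hdd.trans (by norm_num)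
  have hσ : σ ^ 2 ≤ l ^ 2 := pow_le_pow_left₀ h.sigma_pos.le h.s2 2
  have h5 : √(dl a) ^ 3 ≤ 7 / 10 ^ 6 * dl a := by
    rw [pow_succ, e1, mul_comm]
    exact mul_le_mul_of_nonneg_right he hd
  have h6 : dl a * √l ≤ dl a * (1 / 10 ^ 12) := mul_le_mul_of_nonneg_left ht hd
  have h7 : dl a * dl a ≤ dl a * (4 / 10 ^ 11) := mul_le_mul_of_nonneg_left hdd hd
  have h8 : (dl a + 6 * l) ^ 2 ≤ 2 * (dl a * dl a) + 72 * l ^ 2 := by
    nlinarith [sq_nonneg (dl a - 6 * l)]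
  norm_num at h5 h6 h7 ⊢
  nlinarith [sq_nonneg l]

end Big

end Pool.Agent.P187o
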