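import Mathlib
import Pool.Agent.Lib.P187o.StepC
import Pool.Agent.Lib.P187o.KSum

/-!
# The majorant is at most one at `nu * (1 - l / 2 - C l ^ 3)`
-/

set_option autoImplicit false

open scoped ComplexConjugate

namespace Pool.Agent.P187o

lemma bern {σ : ℝ} (h0 : 0 ≤ σ) (h1 : σ ≤ 1) (n : ℕ) :
    (1 - σ) ^ n ≤ 1 - n * σ + (n : ℝ) ^ 2 * (σ ^ 2 / 2) := by
  induction n with
  | zero => simp
  | succ n ih =>
    rw [pow_succ]
    have h2 : (1 - σ) ^ n * (1 - σ) ≤ (1 - n * σ + (n : ℝ) ^ 2 * (σ ^ 2 / 2)) * (1 - σ) :=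
      mul_le_mul_of_nonneg_right ih (by linarith)
    refine h2.trans ?_
    push_cast
    have h3 : 0 ≤ (n : ℝ) ^ 2 * σ ^ 3 := by positivity
    nlinarith [sq_nonneg σ]

namespace Big

variable {a : ℕ → ℂ} {l σ : ℝ}

lemma summ_wxn (h : Big a l σ) : Summable fun n : ℕ => nu ^ (n + 1) * xx a n * ((n : ℝ) + 1) ^ 2 := by
  have h1 : Summable fun n : ℕ => (nu ^ (n + 1) * ((n : ℝ) + 1) ^ 2) ^ 2 := by
    refine hasSum_w_four.summable.congr (fun n => ?_)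
    ring
  refine (summ_mul h1 h.summ_xx).congr (fun n => ?_)
  ring

lemma abs_wxn (h : Big a l σ) :
    ∑' n : ℕ, |nu ^ (n + 1) * xx a n * ((n : ℝ) + 1) ^ 2| ≤ 70 * σ := by
  have hσ := h.sigma_pos
  have h2 : HasSum (fun n : ℕ => (1 / σ) * xx a n ^ 2 +
      σ / 4 * ((nu ^ (n + 1)) ^ 2 * ((n : ℝ) + 1) ^ 4))
      ((1 / σ) * (∑' n, xx a n ^ 2) + σ / 4 * 150) :=
    (h.summ_xx.hasSum.mul_left _).add (hasSum_w_four.mul_left _)
  have h3 := h.summ_wxn.abs.tsum_le_tsum (fun n => ?_) h2.summable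
  · rw [h2.tsum_eq] at h3
    have h4 : 1 / σ * (∑' n, xx a n ^ 2) ≤ 32 * σ := by
      rw [div_mul_eq_mul_div, one_mul, div_le_iff₀ hσ]
      have := h.X2_le
      nlinarith
    linarith
  · rw [abs_mul, abs_mul, abs_of_pos (pow_pos nu_pos (n + 1)),
      abs_of_nonneg (by positivity : (0 : ℝ) ≤ ((n : ℝ) + 1) ^ 2)]
    set w := nu ^ (n + 1) * ((n : ℝ) + 1) ^ 2 with hw
    have h5 : 0 ≤ 1 / σ * (|xx a n| - σ / 2 * w) ^ 2 := by positivity
    have h6 : |xx a n| ^ 2 = xx a n ^ 2 := sq_abs _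
    have h7 : 1 / σ * (|xx a n| - σ / 2 * w) ^ 2 =
        1 / σ * |xx a n| ^ 2 - |xx a n| * w + σ / 4 * w ^ 2 := by
      field_simp
      ring
    rw [h7, h6] at h5
    have h8 : w ^ 2 = (nu ^ (n + 1)) ^ 2 * ((n : ℝ) + 1) ^ 4 := by rw [hw]; ring
    rw [h8] at h5
    have h9 : nu ^ (n + 1) * |xx a n| * ((n : ℝ) + 1) ^ 2 = |xx a n| * w := by rw [hw]; ring
    rw [h9]
    linarith

/-- The first order term. -/
lemma G_le (h : Big a l σ) :
    HasSum (fun n : ℕ => nu ^ (n + 1) * xx a n * (1 - (n : ℝ)))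
      (∑' n : ℕ, nu ^ (n + 1) * xx a n * (1 - (n : ℝ))) ∧
    ∑' n : ℕ, nu ^ (n + 1) * xx a n * (1 - (n : ℝ)) ≤ 4.84 * dl a := by
  have hsum : Summable fun n : ℕ => nu ^ (n + 1) * xx a n * (1 - (n : ℝ)) := by
    refine Summable.of_norm_bounded (g := fun n : ℕ => |nu ^ (n + 1) * xx a n * ((n : ℝ) + 1) ^ 2|)
      h.summ_wxn.abs (fun n => ?_)
    rw [Real.norm_eq_abs, abs_mul, abs_mul (nu ^ (n + 1) * xx a n)]
    refine mul_le_mul_of_nonneg_left ?_ (abs_nonneg _)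
    rw [abs_of_nonneg (by positivity : (0 : ℝ) ≤ ((n : ℝ) + 1) ^ 2), abs_le]
    have hn : (0 : ℝ) ≤ n := Nat.cast_nonneg n
    constructor <;> nlinarith
  refine ⟨hsum.hasSum, ?_⟩
  have hre := ksum h.summ_re_sq h.dl_nonneg (fun m hm => h.ball.pair_re hm)
  -- the sum of squares part vanishes
  have h1 : HasSum (fun n : ℕ => (nu ^ (n + 1)) ^ 2 * (1 - (n : ℝ))) 0 := by
    have := (hasSum_w.mul_left 2).sub hasSum_w_one
    norm_num at this
    refine this.congr_fun (fun n => ?_)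
    ring
  have h2 : HasSum (fun n : ℕ => nu ^ (n + 1) * ‖a (n + 1)‖ * (1 - (n : ℝ)))
      (∑' n : ℕ, nu ^ (n + 1) * xx a n * (1 - (n : ℝ))) := by
    have := hsum.hasSum.add h1
    rw [add_zero] at this
    refine this.congr_fun (fun n => ?_)
    simp only [xx]
    ring
  have h3 := (hasSum_nat_add_iff' (f := fun n : ℕ => nu ^ (n + 1) * ‖a (n + 1)‖ * (1 - (n : ℝ)))
    2).2 h2
  rw [Finset.sum_range_succ, Finset.sum_range_one] at h3
  have hz3 : Summable fun n : ℕ => ((n : ℝ) + 1) * (nu ^ (n + 3) * (a (n + 3)).re) := by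
    have h4 : Summable fun n : ℕ => ((n : ℝ) + 1) * |nu ^ (n + 3) * (a (n + 3)).re| := by
      refine Summable.of_nonneg_of_le (fun n => by positivity) (fun n => ?_)
        ((summable_nat_add_iff 3).2 (summ_wz h.summ_re_sq))
      push_cast
      exact mul_le_mul_of_nonneg_right (by linarith) (abs_nonneg _)
    refine Summable.of_norm_bounded h4 (fun n => ?_)
    rw [Real.norm_eq_abs, abs_mul, abs_of_nonneg (by positivity : (0 : ℝ) ≤ (n : ℝ) + 1)]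
  have h5 := hasSum_le (fun n => ?_) h3 hz3.hasSum
  · have h6 : (a 1).re = ‖a 1‖ := by
      have := congrArg Complex.re h.a1
      rw [Complex.ofReal_re] at this
      exact this
    rw [h6] at hre
    norm_num at h5 hre ⊢
    linarith
  · have h6 : -(a (n + 3)).re ≤ ‖a (n + 3)‖ := by
      have := Complex.abs_re_le_norm (a (n + 3))
      rw [abs_le] at this
      linarith [this.1]
    have h7 : 0 ≤ nu ^ (n + 3) * ((n : ℝ) + 1) := by
      have := nu_pos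
      positivity
    have h8 := mul_le_mul_of_nonneg_left h6 h7
    push_cast
    rw [show n + 2 + 1 = n + 3 from rfl]
    linarith

theorem main_ineq (h : Big a l σ) :
    1 - l < 1 - 2 * σ + 2 * σ ^ 2 - (1 - 2 * σ) * (l ^ 2 / 2) + σ * (4.84 * dl a) +
      35 * σ ^ 3 := by
  have hσ := h.sigma_pos
  have hσ1 := h.sigma_small
  have hσ2 : σ ≤ 1 / 4 := hσ1.trans (by norm_num)
  have hb := h.big
  have hg := hasSum_w_geom (s := 1 - σ) (by linarith) (by linarith)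
  obtain ⟨hG, hG2⟩ := h.G_le
  -- termwise bound
  have hR : HasSum (fun n : ℕ => σ ^ 2 / 2 * |nu ^ (n + 1) * xx a n * ((n : ℝ) + 1) ^ 2|)
      (σ ^ 2 / 2 * ∑' n : ℕ, |nu ^ (n + 1) * xx a n * ((n : ℝ) + 1) ^ 2|) :=
    h.summ_wxn.abs.hasSum.mul_left _
  have htot := ((hg.add (h.summ_wx.hasSum.mul_left (1 - 2 * σ))).add (hG.mul_left σ)).add hR
  have hle : ∀ n : ℕ, ‖a (n + 1)‖ * (nu * (1 - σ)) ^ (n + 1) ≤
      (nu ^ (n + 1)) ^ 2 * (1 - σ) ^ (n + 1) + (1 - 2 * σ) * (nu ^ (n + 1) * xx a n) +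
        σ * (nu ^ (n + 1) * xx a n * (1 - (n : ℝ))) +
        σ ^ 2 / 2 * |nu ^ (n + 1) * xx a n * ((n : ℝ) + 1) ^ 2| := by
    intro n
    have h1 := bern hσ.le (by linarith) (n + 1)
    have h2 := one_add_mul_le_pow (a := -σ) (by linarith) (n + 1)
    rw [← sub_eq_add_neg] at h2
    push_cast at h1 h2
    have h3 : ‖a (n + 1)‖ = nu ^ (n + 1) + xx a n := by simp [xx]
    rw [h3, mul_pow]
    set R := (1 - σ) ^ (n + 1) - (1 - ((n : ℝ) + 1) * σ) with hRdef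
    have h4 : 0 ≤ R := by rw [hRdef]; linarith
    have h5 : R ≤ ((n : ℝ) + 1) ^ 2 * (σ ^ 2 / 2) := by rw [hRdef]; linarith
    have h6 : (1 - σ) ^ (n + 1) = R + (1 - ((n : ℝ) + 1) * σ) := by rw [hRdef]; ring
    have h7 : nu ^ (n + 1) * xx a n * R ≤
        σ ^ 2 / 2 * |nu ^ (n + 1) * xx a n * ((n : ℝ) + 1) ^ 2| := by
      rw [abs_mul, abs_of_nonneg (by positivity : (0 : ℝ) ≤ ((n : ℝ) + 1) ^ 2)]
      have h8 := le_abs_self (nu ^ (n + 1) * xx a n)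
      have h9 : nu ^ (n + 1) * xx a n * R ≤ |nu ^ (n + 1) * xx a n| * R :=
        mul_le_mul_of_nonneg_right h8 h4
      have h10 : |nu ^ (n + 1) * xx a n| * R ≤
          |nu ^ (n + 1) * xx a n| * (((n : ℝ) + 1) ^ 2 * (σ ^ 2 / 2)) :=
        mul_le_mul_of_nonneg_left h5 (abs_nonneg _)
      linarith
    rw [h6]
    linarith
  have hsm : Summable fun n : ℕ => ‖a (n + 1)‖ * (nu * (1 - σ)) ^ (n + 1) := by
    refine Summable.of_nonneg_of_le (fun n => ?_) hle htot.summable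
    have := nu_pos
    have : 0 ≤ nu * (1 - σ) := mul_nonneg nu_pos.le (by linarith)
    positivity
  have h1 := hsm.tsum_le_tsum hle htot.summable
  rw [htot.tsum_eq] at h1
  have h5 : (1 - σ) / (2 - (1 - σ)) ≤ 1 - 2 * σ + 2 * σ ^ 2 := by
    rw [div_le_iff₀ (by linarith)]
    nlinarith [pow_pos hσ 3]
  have h6 : (1 - 2 * σ) * ∑' n, nu ^ (n + 1) * xx a n ≤ (1 - 2 * σ) * (-l ^ 2 / 2) :=
    mul_le_mul_of_nonneg_left h.wx_le (by linarith)
  have h7 : σ * ∑' n : ℕ, nu ^ (n + 1) * xx a n * (1 - (n : ℝ)) ≤ σ * (4.84 * dl a) :=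
    mul_le_mul_of_nonneg_left hG2 hσ.le
  have h8 : σ ^ 2 / 2 * ∑' n : ℕ, |nu ^ (n + 1) * xx a n * ((n : ℝ) + 1) ^ 2| ≤
      σ ^ 2 / 2 * (70 * σ) := mul_le_mul_of_nonneg_left h.abs_wxn (by positivity)
  have h9 : σ ^ 2 / 2 * (70 * σ) = 35 * σ ^ 3 := by ring
  have h10 : (1 - 2 * σ) * (-l ^ 2 / 2) = - ((1 - 2 * σ) * (l ^ 2 / 2)) := by ring
  linarith

theorem absurd (h : Big a l σ) (hσ : σ = l / 2 + 10 ^ 8 * l ^ 3) : False := by
  have h1 := h.main_ineq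
  have h2 := h.dl_le
  have hl := h.l_pos
  have hls := h.l_small
  have hs := h.s2
  have hsp := h.sigma_pos
  have h3 : σ * (4.84 * dl a) ≤ l * (4.84 * (30000000 * l ^ 2)) :=
    mul_le_mul hs (by linarith) (by have := h.dl_nonneg; positivity) hl.le
  have h4 : σ ^ 3 ≤ l ^ 3 := pow_le_pow_left₀ hsp.le hs 3
  have h5 : σ * l ^ 2 ≤ l * l ^ 2 := mul_le_mul_of_nonneg_right hs (sq_nonneg l)
  have h6 : 2 * σ ^ 2 = l ^ 2 / 2 + 2 * 10 ^ 8 * l ^ 4 + 2 * (10 ^ 8 * l ^ 3) ^ 2 := by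
    rw [hσ]; ring
  have h7 : l ^ 4 ≤ l ^ 3 * (1 / 10 ^ 24) := by
    rw [pow_succ]
    exact mul_le_mul_of_nonneg_left hls (by positivity)
  have hl1 : l ≤ 1 := hls.trans (by norm_num)
  have h8 : l ^ 6 ≤ l ^ 3 * (1 / 10 ^ 24) := by
    have : l ^ 6 = l ^ 3 * (l * l ^ 2) := by ring
    rw [this]
    refine mul_le_mul_of_nonneg_left ?_ (by positivity)
    calc l * l ^ 2 ≤ (1 / 10 ^ 24) * 1 :=
          mul_le_mul hls (pow_le_one₀ hl.le hl1) (by positivity) (by positivity)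
      _ = 1 / 10 ^ 24 := by ring
  have h9 : 0 < l ^ 3 := by positivity
  have h10 : (10 ^ 8 * l ^ 3) ^ 2 = 10 ^ 16 * l ^ 6 := by ring
  rw [h10] at h6
  norm_num at h1 h3 h6 h7 h8 hσ
  nlinarith

end Big

end Pool.Agent.P187o
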