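import Mathlib
import Pool.Agent.Lib.P187o.StepE
import Pool.Agent.Lib.P187o.Normal
import Pool.Agent.Lib.P187o.Func

/-!
# The lower bound for the radius
-/

set_option autoImplicit false

open scoped ComplexConjugate
open Pool.Agent.P187f6b

namespace Pool.Agent.P187o

lemma maj_eq (l : ℝ) (f : ℂ → ℂ) (r : ℝ) :
    maj l f r = l + ∑' n : ℕ, ‖tc f (n + 1)‖ * r ^ (n + 1) := rfl

theorem maj_le {l : ℝ} (hl : 0 < l) (hls : l ≤ 1 / 10 ^ 24) {f : ℂ → ℂ} (hf : f ∈ FClass l) :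
    maj l f (nu * (1 - (l / 2 + 10 ^ 8 * l ^ 3))) ≤ 1 := by
  by_contra hcon
  rw [not_le, maj_eq] at hcon
  obtain ⟨a', hB, hn, h1, h2⟩ := (ball_of_mem hf).exists_normal
  have hl2 : l ^ 2 ≤ 1 / 10 ^ 24 := by
    have hl1 : l ≤ 1 := hls.trans (by norm_num)
    nlinarith
  have hbig : Big a' l (l / 2 + 10 ^ 8 * l ^ 3) := by
    refine ⟨hB, hl, hls, ?_, ?_, ?_, ?_, ?_, ?_⟩
    · rw [hn 0, tc_zero, hf.2.2, Complex.norm_real, Real.norm_eq_abs, abs_of_pos hl]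
    · rw [h1, Complex.norm_real, norm_norm]
    · rw [h2, norm_neg, Complex.norm_real, norm_norm]
    · have : 0 < 10 ^ 8 * l ^ 3 := by positivity
      linarith
    · have h3 : 10 ^ 8 * l ^ 3 ≤ l / 2 := by
        have : 10 ^ 8 * l ^ 3 = l * (10 ^ 8 * l ^ 2) := by ring
        rw [this]
        have : 10 ^ 8 * l ^ 2 ≤ 1 / 2 := by
          norm_num at hl2 ⊢
          linarith
        nlinarith
      linarith
    · simp only [hn]
      linarith
  exact hbig.absurd rfl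

theorem lower {l : ℝ} (hl : 0 < l) (hls : l ≤ 1 / 10 ^ 24) :
    nu * (1 - (l / 2 + 10 ^ 8 * l ^ 3)) ≤ BB l := by
  have hl1 : l ≤ 1 := hls.trans (by norm_num)
  have hl2 : l ^ 3 ≤ 1 / 10 ^ 24 := by
    calc l ^ 3 ≤ l ^ 1 := pow_le_pow_of_le_one hl.le hl1 (by norm_num)
      _ ≤ 1 / 10 ^ 24 := by rw [pow_one]; exact hls
  refine le_csSup ⟨1, fun r hr => hr.2.1.le⟩ ⟨?_, ?_, fun f hf => maj_le hl hls hf⟩
  · refine mul_nonneg nu_pos.le ?_
    norm_num at hl2 hls ⊢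
    linarith
  · have h1 := nu_lt_one
    have h2 := nu_pos
    have h3 : 0 < l / 2 + 10 ^ 8 * l ^ 3 := by positivity
    nlinarith

end Pool.Agent.P187o
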